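import Pool.Agent.T6.H35.RS.Aut

set_option autoImplicit false

/-!
# The words of a regular language which give one point
-/

namespace Pool.Agent.T6.H35.RS

open Pool.Agent.TH717.GO Pool.Agent.TH138.LG
open scoped LinearAlgebra.Projectivization

/-- the vector `M ρ(a₁) ⋯ ρ(a_m) v` for the word `w = a₁ ⋯ a_m` -/
def wvec {K : Type} [Field K] {A : Type} {n r : ℕ} (M : Matrix (Fin (n + 1)) (Fin r) K)
    (ρ : A → Matrix (Fin r) (Fin r) K) (v : Fin r → K) (w : List A) : Fin (n + 1) → K :=
  M.mulVec ((w.map ρ).prod.mulVec v)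

/-- the words of `𝓛` which give the point `P` -/
def fibre {K : Type} [Field K] {A : Type} {n r : ℕ} (M : Matrix (Fin (n + 1)) (Fin r) K)
    (ρ : A → Matrix (Fin r) (Fin r) K) (v : Fin r → K) (𝓛 : Language A)
    (P : ℙ K (Fin (n + 1) → K)) : Language A :=
  {w | w ∈ 𝓛 ∧ ∃ h : wvec M ρ v w ≠ 0, P = Projectivization.mk K (wvec M ρ v w) h}

theorem lift_prod {M A : Type} [Monoid M] (f : A → M) (w : List A) :
    FreeMonoid.lift f (FreeMonoid.ofList w) = (w.map f).prod := by
  rw [FreeMonoid.lift_apply]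
  rfl

theorem pth_dfa {A σ : Type} (D : DFA A σ) (i j : σ) (w : FreeMonoid A) :
    Pth (fun i j => {x : FreeMonoid A | ∃ a, x = FreeMonoid.of a ∧ D.step i a = j}) i j w ↔
      D.evalFrom i w.toList = j := by
  constructor
  · intro h
    induction h with
    | nil => rfl
    | cons _ he ih =>
      obtain ⟨a, rfl, ha⟩ := he
      rw [FreeMonoid.toList_mul, FreeMonoid.toList_of, DFA.evalFrom_append_singleton, ih]
      exact ha
  · intro h
    subst h
    have key : ∀ l : List A, Pth (fun i j => {x : FreeMonoid A | ∃ a, x = FreeMonoid.of a ∧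
        D.step i a = j}) i (D.evalFrom i l) (FreeMonoid.ofList l) := by
      intro l
      induction l using List.reverseRecOn with
      | nil => exact .nil
      | append_singleton l a ih =>
        rw [DFA.evalFrom_append_singleton, FreeMonoid.ofList_append]
        exact ih.cons ⟨a, rfl, rfl⟩
    exact key w.toList

theorem fibres (n d s : ℕ) {A : Type} [Finite A] {𝓛 : Language A} (h𝓛 : 𝓛.IsRegular) :
    ∃ N : ℕ, ∀ (k : Type) [Field k] [CharZero k] (FF : Set (MvPolynomial (Fin (n + 1)) k)),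
      (∀ F ∈ FF, ∃ e ≤ d, F.IsHomogeneous e) → NoRatBar FF →
      ∀ (K : Type) [Field K] [Algebra k K] (M : Matrix (Fin (n + 1)) (Fin s) K)
        (ρ : A → Matrix (Fin s) (Fin s) K) (v : Fin s → K),
        (∀ w ∈ 𝓛, wvec M ρ v w ≠ 0 ∧ ∀ F ∈ FF, MvPolynomial.aeval (wvec M ρ v w) F = 0) →
        ∀ P, (fibre M ρ v 𝓛 P).IsRegular ∧
          (Set.range (fibre M ρ v 𝓛 P).leftQuotient).encard ≤ (N : ℕ∞) := by
  classical
  obtain ⟨σ, hσ, D, rfl⟩ := h𝓛
  let E : σ → σ → Set (FreeMonoid A) := fun i j =>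
    {x : FreeMonoid A | ∃ a, x = FreeMonoid.of a ∧ D.step i a = j}
  have hE : ∀ i j, (E i j).Finite := by
    intro i j
    refine (Set.finite_range (FreeMonoid.of (α := A))).subset ?_
    rintro _ ⟨a, rfl, -⟩
    exact ⟨a, rfl⟩
  obtain ⟨R, hR1, hR2, hR3⟩ := uniform_bar E hE n d s
  have hfin : (⋃ i, R D.start i).Finite := Set.finite_iUnion fun i => hR2 _ i
  refine ⟨(⋃ i, R D.start i).ncard, ?_⟩
  intro k _ _ FF hhom hno K _ _ M ρ v hX P
  let ρ' : FreeMonoid A →* Matrix (Fin s) (Fin s) K := FreeMonoid.lift ρ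
  have hval : ∀ u x : List A, wvec M ρ v (u ++ x) =
      val M (ρ' (FreeMonoid.ofList u)) ((x.map ρ).prod.mulVec v) := by
    intro u x
    unfold wvec val
    rw [List.map_append, List.prod_append, ← Matrix.mulVec_mulVec, lift_prod]
  -- the left quotients
  have hLQ : ∀ u : List A, ∃ r ∈ ⋃ i, R D.start i,
      (fibre M ρ v D.accepts P).leftQuotient u =
        (fibre M ρ v D.accepts P).leftQuotient (FreeMonoid.toList r) := by
    intro u
    have hu : Pth E D.start (D.eval u) (FreeMonoid.ofList u) :=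
      (pth_dfa D _ _ (FreeMonoid.ofList u)).2 rfl
    obtain ⟨r, hr, h1⟩ := (hR3 k FF hhom hno K ρ' D.start (D.eval u) _ hu).2
    have hr' : D.eval (FreeMonoid.toList r) = D.eval u :=
      (pth_dfa D _ _ r).1 (hR1 _ _ hr)
    refine ⟨r, Set.mem_iUnion.2 ⟨_, hr⟩, ?_⟩
    have hacc : ∀ (z : FreeMonoid A), Pth E D.start (D.eval u) z → ∀ x : List A,
        D.evalFrom (D.eval u) x ∈ D.accept → FreeMonoid.toList z ++ x ∈ D.accepts := by
      intro z hz x hx
      have h2 : D.eval (FreeMonoid.toList z) = D.eval u := (pth_dfa D _ _ z).1 hz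
      rw [DFA.mem_accepts]
      show D.evalFrom D.start (FreeMonoid.toList z ++ x) ∈ D.accept
      rw [DFA.evalFrom_of_append]
      have h3 : D.evalFrom D.start (FreeMonoid.toList z) = D.eval u := h2
      rw [h3]
      exact hx
    have hpar : ∀ x : List A, D.evalFrom (D.eval u) x ∈ D.accept →
        Par (wvec M ρ v (u ++ x)) (wvec M ρ v (FreeMonoid.toList r ++ x)) := by
      intro x hx
      have h2 := h1 M ((x.map ρ).prod.mulVec v) (fun z hz => by
        have h3 := hval (FreeMonoid.toList z) x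
        rw [FreeMonoid.ofList_toList] at h3
        rw [← h3]
        exact (hX _ (hacc z hz x hx)).2) (fun z hz => by
        have h3 := hval (FreeMonoid.toList z) x
        rw [FreeMonoid.ofList_toList] at h3
        rw [← h3]
        exact (hX _ (hacc z hz x hx)).1)
      have h3 := hval (FreeMonoid.toList r) x
      rw [FreeMonoid.ofList_toList] at h3
      rw [← h3, ← hval] at h2
      exact h2
    have hacc2 : ∀ x : List A, u ++ x ∈ D.accepts ↔ D.evalFrom (D.eval u) x ∈ D.accept := by
      intro x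
      rw [DFA.mem_accepts]
      show D.evalFrom D.start (u ++ x) ∈ D.accept ↔ _
      rw [DFA.evalFrom_of_append]
      rfl
    have hacc3 : ∀ x : List A, FreeMonoid.toList r ++ x ∈ D.accepts ↔
        D.evalFrom (D.eval u) x ∈ D.accept := by
      intro x
      rw [DFA.mem_accepts]
      show D.evalFrom D.start (FreeMonoid.toList r ++ x) ∈ D.accept ↔ _
      rw [DFA.evalFrom_of_append]
      have h3 : D.evalFrom D.start (FreeMonoid.toList r) = D.eval u := hr'
      rw [h3]
    ext x
    rw [Language.mem_leftQuotient, Language.mem_leftQuotient]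
    constructor
    · rintro ⟨h2, h3, h4⟩
      have h5 := (hacc2 x).1 h2
      have h6 := (hacc3 x).2 h5
      refine ⟨h6, (hX _ h6).1, ?_⟩
      rw [h4]
      exact mk_eq_of_cross h3 (hX _ h6).1 (hpar x h5)
    · rintro ⟨h2, h3, h4⟩
      have h5 := (hacc3 x).1 h2
      have h6 := (hacc2 x).2 h5
      refine ⟨h6, (hX _ h6).1, ?_⟩
      rw [h4]
      exact (mk_eq_of_cross (hX _ h6).1 h3 (hpar x h5)).symm
  have hsub : Set.range (fibre M ρ v D.accepts P).leftQuotient ⊆
      (fun r => (fibre M ρ v D.accepts P).leftQuotient (FreeMonoid.toList r)) ''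
        (⋃ i, R D.start i) := by
    rintro _ ⟨u, rfl⟩
    obtain ⟨r, hr, h⟩ := hLQ u
    exact ⟨r, hr, h.symm⟩
  refine ⟨Language.IsRegular.of_finite_range_leftQuotient ((hfin.image _).subset hsub), ?_⟩
  refine (Set.encard_le_encard hsub).trans ((Set.encard_image_le _ _).trans ?_)
  rw [← hfin.cast_ncard_eq]

end Pool.Agent.T6.H35.RS
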