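import Pool.Agent.T6.H35.RS.Base

set_option autoImplicit false

/-!
# Automata with labels in a monoid; points
-/

namespace Pool.Agent.T6.H35.RS

open Pool.Agent.TH717.GO Pool.Agent.TH138.LG
open scoped LinearAlgebra.Projectivization

/-- the labels of the transitions from `i` to `j` -/
def edges {S : Type} {v e : ℕ} (src tgt : Fin e → Fin v) (lab : Fin e → S) :
    Fin v → Fin v → Set S :=
  fun i j => {x | ∃ t, src t = i ∧ tgt t = j ∧ lab t = x}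

/-- `𝓛` is the set of the labels of the paths from initial to final states of an automaton with
`v` states and `e` transitions, which are labelled by elements of the monoid `S` -/
def Accepted {S : Type} [Monoid S] (v e : ℕ) (𝓛 : Set S) : Prop :=
  ∃ (src tgt : Fin e → Fin v) (lab : Fin e → S) (I F : Set (Fin v)),
    𝓛 = {z | ∃ i ∈ I, ∃ j ∈ F, Pth (edges src tgt lab) i j z}

theorem edges_finite {S : Type} {v e : ℕ} (src tgt : Fin e → Fin v) (lab : Fin e → S)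
    (i j : Fin v) : (edges src tgt lab i j).Finite := by
  refine (Set.finite_range lab).subset ?_
  rintro x ⟨t, -, -, rfl⟩
  exact ⟨t, rfl⟩

theorem pth_free {S : Type} [Monoid S] {v e : ℕ} (src tgt : Fin e → Fin v) (lab : Fin e → S)
    (i j : Fin v) (z : S) : Pth (edges src tgt lab) i j z ↔
      ∃ w, Pth (edges src tgt FreeMonoid.of) i j w ∧ FreeMonoid.lift lab w = z := by
  constructor
  · intro h
    induction h with
    | nil => exact ⟨1, .nil, map_one _⟩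
    | cons _ he ih =>
      obtain ⟨w, hw, rfl⟩ := ih
      obtain ⟨t, h1, h2, rfl⟩ := he
      refine ⟨w * FreeMonoid.of t, hw.cons ⟨t, h1, h2, rfl⟩, ?_⟩
      rw [map_mul, FreeMonoid.lift_eval_of]
  · rintro ⟨w, hw, rfl⟩
    induction hw with
    | nil => rw [map_one]; exact .nil
    | cons _ he ih =>
      obtain ⟨t, h1, h2, rfl⟩ := he
      rw [map_mul, FreeMonoid.lift_eval_of]
      exact ih.cons ⟨t, h1, h2, rfl⟩

/-- **Uniform bound for the size of sets of representatives** -/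
theorem uniform_aut (n d s v e : ℕ) : ∃ B : ℕ, ∀ (S : Type) [Monoid S] (𝓛 : Set S),
    Accepted v e 𝓛 → ∃ 𝓕 ⊆ 𝓛, 𝓕.encard ≤ (B : ℕ∞) ∧
      ∀ (k : Type) [Field k] [CharZero k] (FF : Set (MvPolynomial (Fin (n + 1)) k)),
        (∀ F ∈ FF, ∃ e ≤ d, F.IsHomogeneous e) → NoRatBar FF →
        ∀ (K : Type) [Field K] [Algebra k K] (ρ : S →* Matrix (Fin s) (Fin s) K), ∀ z ∈ 𝓛,
          DomA (fun a : Fin (n + 1) → K => ∀ F ∈ FF, MvPolynomial.aeval a F = 0) ρ 𝓛 𝓕 z := by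
  classical
  have h1 : ∀ sh : (Fin e → Fin v) × (Fin e → Fin v),
      _ := fun sh => uniform_bar (edges sh.1 sh.2 (FreeMonoid.of (α := Fin e)))
        (edges_finite sh.1 sh.2 _) n d s
  choose R hR1 hR2 hR3 using h1
  let B : ℕ := ∑ sh : (Fin e → Fin v) × (Fin e → Fin v), (⋃ c : Fin v × Fin v, R sh c.1 c.2).ncard
  refine ⟨B, ?_⟩
  rintro S _ _ ⟨src, tgt, lab, I, F, rfl⟩
  let h : FreeMonoid (Fin e) →* S := FreeMonoid.lift lab
  refine ⟨{z | ∃ i ∈ I, ∃ j ∈ F, ∃ w ∈ R (src, tgt) i j, h w = z}, ?_, ?_, ?_⟩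
  · rintro _ ⟨i, hi, j, hj, w, hw, rfl⟩
    exact ⟨i, hi, j, hj, (pth_free src tgt lab i j _).2 ⟨w, hR1 (src, tgt) i j hw, rfl⟩⟩
  · have h2 : {z | ∃ i ∈ I, ∃ j ∈ F, ∃ w ∈ R (src, tgt) i j, h w = z} ⊆
        h '' (⋃ c : Fin v × Fin v, R (src, tgt) c.1 c.2) := by
      rintro _ ⟨i, hi, j, hj, w, hw, rfl⟩
      exact ⟨w, Set.mem_iUnion.2 ⟨(i, j), hw⟩, rfl⟩
    have hfin : (⋃ c : Fin v × Fin v, R (src, tgt) c.1 c.2).Finite :=
      Set.finite_iUnion fun c => hR2 _ c.1 c.2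
    refine (Set.encard_le_encard h2).trans ((Set.encard_image_le _ _).trans ?_)
    rw [← hfin.cast_ncard_eq]
    have h3 : (⋃ c : Fin v × Fin v, R (src, tgt) c.1 c.2).ncard ≤ B :=
      Finset.single_le_sum (f := fun sh : (Fin e → Fin v) × (Fin e → Fin v) =>
        (⋃ c : Fin v × Fin v, R sh c.1 c.2).ncard) (fun _ _ => Nat.zero_le _)
        (Finset.mem_univ (src, tgt))
    exact_mod_cast h3
  · rintro k _ _ FF hhom hno K _ _ ρ z ⟨i, hi, j, hj, hz⟩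
    obtain ⟨w, hw, rfl⟩ := (pth_free src tgt lab i j z).1 hz
    intro A y h2 h3
    obtain ⟨r, hr, h4, h5⟩ := (hR3 (src, tgt) k FF hhom hno K (ρ.comp h) i j w hw).1 A y
      (fun x hx => h2 (h x) ⟨i, hi, j, hj, (pth_free src tgt lab i j _).2 ⟨x, hx, rfl⟩⟩) h3
    exact ⟨h r, ⟨i, hi, j, hj, r, hr, rfl⟩, h4, h5⟩

/-- the points with the homogeneous coordinates `M ρ(z) v`, `z ∈ 𝓛`, if these are not all zero -/
def pts {K : Type} [Field K] {S : Type} {n r : ℕ} (M : Matrix (Fin (n + 1)) (Fin r) K)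
    (ρ : S → Matrix (Fin r) (Fin r) K) (v : Fin r → K) (𝓛 : Set S) :
    Set (ℙ K (Fin (n + 1) → K)) :=
  {P | ∃ z ∈ 𝓛, ∃ h : M.mulVec ((ρ z).mulVec v) ≠ 0,
    P = Projectivization.mk K (M.mulVec ((ρ z).mulVec v)) h}

theorem pts_eq {K : Type} [Field K] {S : Type} {n r : ℕ} (M : Matrix (Fin (n + 1)) (Fin r) K)
    (ρ : S → Matrix (Fin r) (Fin r) K) (v : Fin r → K) {𝓛 𝓕 : Set S} (hF : 𝓕 ⊆ 𝓛)
    {On : (Fin (n + 1) → K) → Prop} (hOn : ∀ z ∈ 𝓛, On (M.mulVec ((ρ z).mulVec v)))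
    (h : ∀ z ∈ 𝓛, DomA On ρ 𝓛 𝓕 z) : pts M ρ v 𝓛 = pts M ρ v 𝓕 := by
  apply Set.Subset.antisymm
  · rintro _ ⟨z, hz, h0, rfl⟩
    obtain ⟨r, hr, h1, h2⟩ := h z hz M v hOn h0
    exact ⟨r, hr, h1, mk_eq_of_cross h0 h1 h2⟩
  · rintro _ ⟨z, hz, h0, rfl⟩
    exact ⟨z, hF hz, h0, rfl⟩

end Pool.Agent.T6.H35.RS
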