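import Pool.Agent.T6.H35.RS.Core

set_option autoImplicit false

/-!
# Rational subsets of monoids
-/

namespace Pool.Agent.T6.H35.RS

open Pool.Agent.TH717.GO Pool.Agent.TH138.LG

/-- a subset of a monoid is rational if it consists of the labels of the paths from a set of
initial vertices to a set of final vertices in a finite graph with finitely many edges, which are
labelled by elements of the monoid -/
def IsRational {S : Type} [Monoid S] (𝓛 : Set S) : Prop :=
  ∃ (V : Type) (_ : Finite V) (E : V → V → Set S) (I F : Set V), (∀ i j, (E i j).Finite) ∧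
    𝓛 = {z | ∃ i ∈ I, ∃ j ∈ F, Pth E i j z}

variable {K : Type} [Field K] [CharZero K] {S : Type} [Monoid S] {s : ℕ}

theorem FinRep.rep (ρ : S →* Matrix (Fin s) (Fin s) K) {V : Type} [Finite V] (E : V → V → Set S)
    (hE : ∀ i j, (E i j).Finite) (i j : V) : FinRep ρ {z | Pth E i j z} := by
  classical
  let ψ : S →* S × Matrix (Fin s) (Fin s) K := (MonoidHom.id S).prod ρ
  let E' : V → V → Set (S × Matrix (Fin s) (Fin s) K) := fun i j => ψ '' E i j
  have h1 : ∀ i j z, Pth E i j z → Pth E' i j (ψ z) := by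
    intro i j z h
    induction h with
    | nil => rw [map_one]; exact .nil
    | cons _ he ih =>
      rw [map_mul]
      exact ih.cons ⟨_, he, rfl⟩
  have h2 : ∀ i j z, Pth E' i j z → ∃ z', Pth E i j z' ∧ ψ z' = z := by
    intro i j z h
    induction h with
    | nil => exact ⟨1, .nil, map_one ψ⟩
    | cons _ he ih =>
      obtain ⟨z', hz', rfl⟩ := ih
      obtain ⟨e', he', rfl⟩ := he
      exact ⟨z' * e', hz'.cons he', map_mul ψ _ _⟩
  obtain ⟨R, hR1, hR2, hR3⟩ := FinRep.main s V E' (fun i j => (hE i j).image ψ) i j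
  refine ⟨Prod.fst '' R, ?_, hR2.image _, ?_⟩
  · rintro _ ⟨z, hz, rfl⟩
    obtain ⟨z', hz', rfl⟩ := h2 i j z (hR1 hz)
    exact hz'
  · intro z hz n On Off hT ι A y a1 a2 a3
    obtain ⟨r, hr, h4⟩ := hR3 (ψ z) (h1 i j z hz) n On Off hT ι A y
      (by
        intro t x hx
        obtain ⟨z', hz', rfl⟩ := h2 i j x hx
        exact a1 t z' hz')
      (a2.imp id (by
        intro h5 t x hx
        obtain ⟨z', hz', rfl⟩ := h2 i j x hx
        exact h5 t z' hz')) a3
    obtain ⟨z', hz', rfl⟩ := h2 i j r (hR1 hr)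
    exact ⟨z', ⟨ψ z', hr, rfl⟩, h4⟩

theorem FinRep.rational (ρ : S →* Matrix (Fin s) (Fin s) K) {𝓛 : Set S} (h : IsRational 𝓛) :
    FinRep ρ 𝓛 := by
  obtain ⟨V, hV, E, I, F, hE, rfl⟩ := h
  refine FinRep.cover (κ := ↥I × ↥F) (fun c => {z | Pth E c.1 c.2 z})
    (fun c => FinRep.rep ρ E hE _ _) ?_ ?_
  · intro c z hz
    exact ⟨c.1, c.1.2, c.2, c.2.2, hz⟩
  · rintro z ⟨i, hi, j, hj, hz⟩
    exact ⟨(⟨i, hi⟩, ⟨j, hj⟩), hz⟩

/-- the zero set of `FF`, if it contains no nonconstant rational curve -/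
theorem tst_ne {n : ℕ} {k : Type} [Field k] [CharZero k] (FF : Set (MvPolynomial (Fin (n + 1)) k))
    (hhom : ∀ F ∈ FF, ∃ e, F.IsHomogeneous e)
    (hcur : ∀ R, CurCond FF (1 : MvPolynomial (Fin (n + 1)) k) R) {L : Type} [Field L]
    [Algebra k L] :
    Tst (K := L) (fun a : Fin (n + 1) → L => ∀ F ∈ FF, MvPolynomial.aeval a F = 0)
      (fun a : Fin (n + 1) → L => a ≠ 0) := by
  have h := tst_of (K := L) FF hhom 1 0 (MvPolynomial.isHomogeneous_one _ _) hcur
  have e : (fun a : Fin (n + 1) → L => a ≠ 0 ∧ MvPolynomial.aeval a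
      (1 : MvPolynomial (Fin (n + 1)) k) ≠ 0) = fun a : Fin (n + 1) → L => a ≠ 0 := by
    funext a
    simp
  rwa [e] at h

end Pool.Agent.T6.H35.RS
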