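import Pool.Agent.T6.H35.RS.Uni
import Pool.Agent.TH717.GO.UD

set_option autoImplicit false

/-!
# Uniform finite sets of representatives over arbitrary fields
-/

namespace Pool.Agent.T6.H35.RS

open Pool.Agent.TH717.GO Pool.Agent.TH138.LG

variable {n : ℕ}

theorem par_map {K L : Type} [Field K] [Field L] (φ : K →+* L) {a b : Fin (n + 1) → K} :
    Par (fun j => φ (a j)) (fun j => φ (b j)) ↔ Par a b := by
  refine forall_congr' fun i => forall_congr' fun j => ?_
  rw [← map_mul, ← map_mul]
  exact φ.injective.eq_iff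

theorem val_map {K L : Type} [Field K] [Field L] (φ : K →+* L) {s : ℕ}
    (A : Matrix (Fin (n + 1)) (Fin s) K) (x : Matrix (Fin s) (Fin s) K) (y : Fin s → K) :
    val (A.map φ) (x.map φ) (φ ∘ y) = fun j => φ (val A x y j) := by
  unfold val
  have h1 : (x.map φ).mulVec (φ ∘ y) = φ ∘ (x.mulVec y) := by
    funext i
    exact (RingHom.map_mulVec φ x y i).symm
  rw [h1]
  funext i
  exact (RingHom.map_mulVec φ A _ i).symm

/-- extension of scalars of a representation -/
def mapRep {K L : Type} [Field K] [Field L] (φ : K →+* L) {s : ℕ} {N : Type} [Monoid N]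
    (ρ : N →* Matrix (Fin s) (Fin s) K) : N →* Matrix (Fin s) (Fin s) L :=
  (φ.mapMatrix (m := Fin s)).toMonoidHom.comp ρ

theorem dom_of_map {K L : Type} [Field K] [Field L] (φ : K →+* L) {s : ℕ} {N : Type} [Monoid N]
    (ρ : N →* Matrix (Fin s) (Fin s) K) {On : (Fin (n + 1) → K) → Prop}
    {On' : (Fin (n + 1) → L) → Prop} (hOn : ∀ a, On a → On' (fun j => φ (a j))) {P R : Set N}
    {z : N} :
    (DomA On' (mapRep φ ρ) P R z → DomA On ρ P R z) ∧
    (DomB On' (mapRep φ ρ) P R z → DomB On ρ P R z) := by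
  have e : ∀ (A : Matrix (Fin (n + 1)) (Fin s) K) (y : Fin s → K) (x : N),
      val (A.map φ) (mapRep φ ρ x) (φ ∘ y) = fun j => φ (val A (ρ x) y j) :=
    fun A y x => val_map φ A (ρ x) y
  have hne : ∀ a : Fin (n + 1) → K, a ≠ 0 ↔ (fun j => φ (a j)) ≠ 0 := by
    intro a
    refine not_congr ⟨fun h => by rw [h]; funext j; exact map_zero φ, fun h => funext fun j => ?_⟩
    exact (map_eq_zero φ).1 (congrFun h j)
  refine ⟨?_, ?_⟩
  · intro h A y h1 h2
    obtain ⟨r, hr, h3, h4⟩ := h (A.map φ) (φ ∘ y) (fun x hx => by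
      rw [e]
      exact hOn _ (h1 x hx)) (by
      rw [e]
      exact (hne _).1 h2)
    rw [e] at h3
    rw [e, e, par_map] at h4
    exact ⟨r, hr, (hne _).2 h3, h4⟩
  · rintro ⟨r, hr, h⟩
    refine ⟨r, hr, fun A y h1 h2 => ?_⟩
    have h4 := h (A.map φ) (φ ∘ y) (fun x hx => by
      rw [e]
      exact hOn _ (h1 x hx)) (fun x hx => by
      rw [e]
      exact (hne _).1 (h2 x hx))
    rwa [e, e, par_map] at h4

/-- the uniform theorem for closed sets over a field `k` and representations over a field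
`K ⊇ k` -/
theorem uniform_bar {S : Type} [Monoid S] {V : Type} [Finite V] (E : V → V → Set S)
    (hE : ∀ i j, (E i j).Finite) (n d s : ℕ) :
    ∃ R : V → V → Set S, (∀ i j, R i j ⊆ {z | Pth E i j z}) ∧ (∀ i j, (R i j).Finite) ∧
      ∀ (k : Type) [Field k] [CharZero k] (FF : Set (MvPolynomial (Fin (n + 1)) k)),
        (∀ F ∈ FF, ∃ e ≤ d, F.IsHomogeneous e) → NoRatBar FF →
        ∀ (K : Type) [Field K] [Algebra k K] (ρ : S →* Matrix (Fin s) (Fin s) K) (i j : V)
          (z : S), Pth E i j z →
          DomA (fun a : Fin (n + 1) → K => ∀ F ∈ FF, MvPolynomial.aeval a F = 0) ρ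
            {z | Pth E i j z} (R i j) z ∧
          DomB (fun a : Fin (n + 1) → K => ∀ F ∈ FF, MvPolynomial.aeval a F = 0) ρ
            {z | Pth E i j z} (R i j) z := by
  obtain ⟨R, hR1, hR2, hR3⟩ := uniform E hE n d s
  refine ⟨R, hR1, hR2, ?_⟩
  intro k _ _ FF hhom hno K _ _ ρ i j z hz
  have hK0 : CharZero K := charZero_of_injective_algebraMap (FaithfulSMul.algebraMap_injective k K)
  let L := AlgebraicClosure K
  let φ : K →+* L := algebraMap K L
  let ψ : k →+* L := algebraMap k L
  let FF' : Set (MvPolynomial (Fin (n + 1)) L) := MvPolynomial.map ψ '' FF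
  have hFF' : ∀ F ∈ FF', ∃ e ≤ d, F.IsHomogeneous e := by
    rintro _ ⟨F, hF, rfl⟩
    obtain ⟨e, he, hFe⟩ := hhom F hF
    exact ⟨e, he, hFe.map _⟩
  have hno' : NoRat FF' := by
    intro q hq i j a b
    have hcur := noRatBar_cur FF hno
    -- shift the parameter
    let sh : Polynomial L →+* Polynomial L :=
      Polynomial.compRingHom (Polynomial.X + Polynomial.C (b - 1))
    let p : Fin (n + 1) → Polynomial L := fun i => sh (q i)
    have hpe : ∀ i (t : L), (p i).eval t = (q i).eval (t + (b - 1)) := by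
      intro i t
      show ((q i).comp _).eval t = _
      rw [Polynomial.eval_comp, Polynomial.eval_add, Polynomial.eval_X, Polynomial.eval_C]
    have hp : ∀ F ∈ FF, MvPolynomial.aeval p F = 0 := by
      intro F hF
      have h1 := congrArg sh (hq _ ⟨F, hF, rfl⟩)
      rw [map_zero, MvPolynomial.aeval_def, MvPolynomial.eval₂_map,
        MvPolynomial.eval₂_comp_left] at h1
      rw [MvPolynomial.aeval_def]
      have h2 : sh.comp ((algebraMap L (Polynomial L)).comp ψ) = algebraMap k (Polynomial L) := by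
        refine RingHom.ext fun x => ?_
        show (algebraMap L (Polynomial L) (ψ x)).comp _ = _
        rw [Polynomial.algebraMap_apply, Polynomial.algebraMap_apply]
        show (Polynomial.C _).comp _ = _
        rw [Polynomial.C_comp]
        rfl
      rw [h2] at h1
      exact h1
    have h3 := hcur (Finset.univ.sup fun i => (p i).support).card L p
      (Finset.univ.sup fun i => (p i).support) le_rfl
      (fun i => Finset.le_sup (f := fun i => (p i).support) (Finset.mem_univ i)) hp
      (by rw [map_one]; exact one_ne_zero) i j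
    have h4 := congrArg (Polynomial.eval (a - (b - 1))) h3
    rw [Polynomial.eval_mul, Polynomial.eval_mul, Polynomial.eval_C, Polynomial.eval_C, hpe, hpe,
      hpe, hpe] at h4
    have h5 : a - (b - 1) + (b - 1) = a := by ring
    have h6 : (1 : L) + (b - 1) = b := by ring
    rwa [h5, h6] at h4
  have hres := hR3 L FF' hFF' hno' (mapRep φ ρ) i j z hz
  have hOn : ∀ a : Fin (n + 1) → K, (∀ F ∈ FF, MvPolynomial.aeval a F = 0) →
      ∀ F ∈ FF', MvPolynomial.aeval (fun j => φ (a j)) F = 0 := by
    rintro a ha _ ⟨F, hF, rfl⟩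
    have h1 : MvPolynomial.aeval (fun j => φ (a j)) (MvPolynomial.map ψ F) =
        MvPolynomial.aeval (fun j => φ (a j)) F := by
      rw [MvPolynomial.aeval_def, MvPolynomial.aeval_def, MvPolynomial.eval₂_map]
      rfl
    rw [h1]
    have h2 : MvPolynomial.aeval (fun j => φ (a j)) F = φ (MvPolynomial.aeval a F) :=
      MvPolynomial.aeval_algebraMap_apply (A := K) L a F
    rw [h2, ha F hF, map_zero]
  have hd := dom_of_map φ ρ (On := fun a : Fin (n + 1) → K => ∀ F ∈ FF, MvPolynomial.aeval a F = 0)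
    (On' := fun a : Fin (n + 1) → L => ∀ F ∈ FF', MvPolynomial.aeval a F = 0) hOn
    (P := {z | Pth E i j z}) (R := R i j) (z := z)
  exact ⟨hd.1 hres.1, hd.2 hres.2⟩

end Pool.Agent.T6.H35.RS
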