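import Pool.Agent.T6.H35.RS.Reg
import Pool.Agent.TH409.SH.Fin2

set_option autoImplicit false

/-!
# Hyperbolic varieties and converses
-/

namespace Pool.Agent.T6.H35.RS

open NumberField Pool.Agent.H458.Sp Pool.Agent.H533R3.SL Pool.Agent.TH717.GO Pool.Agent.TH138.LG
open scoped LinearAlgebra.Projectivization

variable {n : ℕ}

theorem noRatBar_of_C {k : Type} [Field k] (σ : k →+* ℂ)
    (FF : Set (MvPolynomial (Fin (n + 1)) k)) (h : NoRatC σ FF) : NoRatBar FF := by
  let _ : Algebra k ℂ := σ.toAlgebra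
  let τ : AlgebraicClosure k →ₐ[k] ℂ := IsAlgClosed.lift
  have hτ : (τ : AlgebraicClosure k →+* ℂ).comp (algebraMap k (AlgebraicClosure k)) = σ :=
    τ.comp_algebraMap
  intro q hq i j a b
  have h1 := h (fun i => (q i).map (τ : AlgebraicClosure k →+* ℂ)) (by
    intro F hF
    have h4 := congrArg (Polynomial.mapRingHom (τ : AlgebraicClosure k →+* ℂ)) (hq F hF)
    rw [map_zero, MvPolynomial.aeval_def, MvPolynomial.hom_eval₂] at h4
    have h5 : (Polynomial.mapRingHom (τ : AlgebraicClosure k →+* ℂ)).comp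
        (algebraMap k (Polynomial (AlgebraicClosure k))) = Polynomial.C.comp σ := by
      rw [← hτ]
      refine RingHom.ext fun x => ?_
      show Polynomial.map _ (algebraMap k (Polynomial (AlgebraicClosure k)) x) = _
      rw [Polynomial.algebraMap_apply, Polynomial.map_C]
      rfl
    rw [h5] at h4
    exact h4) i j (τ a) (τ b)
  have hev : ∀ (i : Fin (n + 1)) (c : AlgebraicClosure k),
      ((q i).map (τ : AlgebraicClosure k →+* ℂ)).eval (τ c) = τ ((q i).eval c) := by
    intro i c
    rw [Polynomial.eval_map]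
    exact Polynomial.eval₂_at_apply (τ : AlgebraicClosure k →+* ℂ) c
  rw [hev, hev, hev, hev, ← map_mul, ← map_mul] at h1
  exact (τ : AlgebraicClosure k →+* ℂ).injective h1

/-- a closed set with a hyperbolic space of complex points contains no rational curve -/
theorem noRatBar_of_hyperbolic {k : Type} [Field k] (σ : k →+* ℂ)
    (FF : Set (MvPolynomial (Fin (n + 1)) k)) (hhom : ∀ F ∈ FF, ∃ e, F.IsHomogeneous e)
    (hyp : BrodyHyperbolic ((MvPolynomial.map σ) '' FF)) : NoRatBar FF := by
  refine noRatBar_of_C σ FF ?_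
  intro q hq i j a b
  refine Pool.Agent.TH409.SH.no_curveC' _ ?_ hyp q ?_ i j a b
  · rintro _ ⟨F, hF, rfl⟩
    obtain ⟨e, he⟩ := hhom F hF
    exact ⟨e, he.map _⟩
  · rintro _ ⟨F, hF, rfl⟩
    rw [MvPolynomial.aeval_def, MvPolynomial.eval₂_map]
    exact hq F hF

/-- a rational curve gives an infinite set of points on the orbit of one matrix -/
theorem conv_matrix {k : Type} [Field k] [NumberField k]
    (FF : Finset (MvPolynomial (Fin (n + 1)) k))
    (h : ¬ NoRatBar (FF : Set (MvPolynomial (Fin (n + 1)) k))) :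
    ∃ (r : ℕ) (K : Type) (_ : Field K) (_ : NumberField K) (_ : Algebra k K)
        (M : Matrix (Fin (n + 1)) (Fin r) K) (g : Matrix (Fin r) (Fin r) K)
        (v : Fin r → K),
        (∀ m : ℕ, M.mulVec ((g ^ m).mulVec v) ≠ 0 ∧
          ∀ F ∈ FF, MvPolynomial.aeval (M.mulVec ((g ^ m).mulVec v)) F = 0) ∧
        {P : ℙ K (Fin (n + 1) → K) | ∃ (m : ℕ) (h : M.mulVec ((g ^ m).mulVec v) ≠ 0),
          P = Projectivization.mk K _ h}.Infinite := by
  classical
  unfold NoRatBar at h
  push Not at h
  obtain ⟨q, hq, i, j, a, b, hab⟩ := h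
  let L := AlgebraicClosure k
  let sh : Polynomial L →+* Polynomial L :=
    Polynomial.compRingHom (Polynomial.X + Polynomial.C (b - 1))
  let p : Fin (n + 1) → Polynomial L := fun i => sh (q i)
  have hpe : ∀ i (t : L), (p i).eval t = (q i).eval (t + (b - 1)) := by
    intro i t
    show ((q i).comp _).eval t = _
    rw [Polynomial.eval_comp, Polynomial.eval_add, Polynomial.eval_X, Polynomial.eval_C]
  have hp : ∀ F ∈ (FF : Set (MvPolynomial (Fin (n + 1)) k)), MvPolynomial.aeval p F = 0 := by
    intro F hF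
    have h1 := congrArg sh (hq F hF)
    rw [map_zero, MvPolynomial.aeval_def, MvPolynomial.hom_eval₂] at h1
    rw [MvPolynomial.aeval_def]
    have h2 : sh.comp (algebraMap k (Polynomial L)) = algebraMap k (Polynomial L) := by
      refine RingHom.ext fun x => ?_
      show (algebraMap k (Polynomial L) x).comp _ = _
      rw [Polynomial.algebraMap_apply, Polynomial.C_comp]
    rw [← h2]
    exact h1
  set N : ℕ := Finset.univ.sup (fun i => (p i).natDegree) + 1 with hN
  have hNc : ∀ i m, N ≤ m → (p i).coeff m = 0 := by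
    intro i m hm
    apply Polynomial.coeff_eq_zero_of_natDegree_lt
    have := Finset.le_sup (f := fun i => (p i).natDegree) (Finset.mem_univ i)
    omega
  obtain ⟨K, iK, iN, iAK, w, h1, h2, h3⟩ := Pool.Agent.TH409.SH.specialise k L p FF hp N hNc
    ⟨i, j, fun heq => hab (by
      have h4 := congrArg (Polynomial.eval (a - (b - 1))) heq
      rw [Polynomial.eval_mul, Polynomial.eval_mul, Polynomial.eval_C, Polynomial.eval_C, hpe, hpe,
        hpe, hpe] at h4
      have h5 : a - (b - 1) + (b - 1) = a := by ring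
      have h6 : (1 : L) + (b - 1) = b := by ring
      rwa [h5, h6] at h4)⟩ 1 (by rw [map_one]; exact one_ne_zero)
  obtain ⟨ρ, v, h4, h5⟩ := curve_words (FF : Set (MvPolynomial (Fin (n + 1)) k)) 1 w h1 h2 h3
  have hwv : ∀ l : List Unit, wordVec (M0 w) ρ v l =
      (M0 w).mulVec (((ρ () : Matrix (Fin N) (Fin N) K) ^ l.length).mulVec v) := by
    intro l
    unfold wordVec
    have : l.map ρ = List.replicate l.length (ρ ()) := by
      rw [List.eq_replicate_iff]
      refine ⟨by simp, ?_⟩
      intro g hg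
      obtain ⟨u, -, rfl⟩ := List.mem_map.1 hg
      rfl
    rw [this, List.prod_replicate, Units.val_pow_eq_pow_val]
  refine ⟨N, K, iK, iN, iAK, M0 w, (ρ () : Matrix (Fin N) (Fin N) K), v, ?_, ?_⟩
  · intro m
    have h6 := h4 (List.replicate m ())
    rw [hwv, List.length_replicate] at h6
    exact h6
  · refine h5.mono ?_
    rintro P ⟨l, -, h0, hP, -⟩
    have h7 := hwv l
    refine ⟨l.length, h7 ▸ h0, ?_⟩
    rw [hP]
    congr 1

/-- the number of nonzero digits of `m` in base `b` -/
def nzd (b : ℕ) (hb : 2 ≤ b) : ℕ → ℕ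
  | 0 => 0
  | m + 1 => nzd b hb ((m + 1) / b) + (if (m + 1) % b = 0 then 0 else 1)
  decreasing_by exact Nat.div_lt_self (Nat.succ_pos m) hb

theorem nzd_step (b : ℕ) (hb : 2 ≤ b) (m c : ℕ) (hc : c < b) :
    nzd b hb (b * m + c) = nzd b hb m + (if c = 0 then 0 else 1) := by
  rcases Nat.eq_zero_or_pos (b * m + c) with h | h
  · have hm : m = 0 := by
      rcases Nat.eq_zero_or_pos m with h1 | h1
      · exact h1
      · have : 0 < b * m := Nat.mul_pos (by omega) h1
        omega
    have hc0 : c = 0 := by omega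
    subst hm hc0
    simp
  · obtain ⟨t, ht⟩ : ∃ t, b * m + c = t + 1 := ⟨b * m + c - 1, by omega⟩
    have h1 : (b * m + c) / b = m := by
      rw [Nat.mul_add_div (by omega), Nat.div_eq_of_lt hc, add_zero]
    have h2 : (b * m + c) % b = c := by
      rw [Nat.mul_add_mod, Nat.mod_eq_of_lt hc]
    rw [ht, nzd, ← ht, h1, h2]

theorem nzd_ker (b : ℕ) (hb : 2 ≤ b) (e c : ℕ) (hc : c < b ^ e) (m : ℕ) :
    nzd b hb (b ^ e * m + c) = nzd b hb m + nzd b hb c := by
  induction e generalizing c with
  | zero =>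
    have : c = 0 := by simpa using hc
    subst this
    simp [nzd]
  | succ e ih =>
    have h1 : c / b < b ^ e := by
      rw [Nat.div_lt_iff_lt_mul (by omega), ← pow_succ]
      exact hc
    have h2 : b ^ (e + 1) * m + c = b * (b ^ e * m + c / b) + c % b := by
      rw [mul_add, add_assoc, Nat.div_add_mod, pow_succ]
      ring
    have h3 : nzd b hb c = nzd b hb (c / b) + (if c % b = 0 then 0 else 1) := by
      conv_lhs => rw [← Nat.div_add_mod c b]
      exact nzd_step b hb _ _ (Nat.mod_lt _ (by omega))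
    rw [h2, nzd_step b hb _ _ (Nat.mod_lt _ (by omega)), ih _ h1, h3, add_assoc]

theorem nzd_surj (b : ℕ) (hb : 2 ≤ b) (t : ℕ) : ∃ m, nzd b hb m = t := by
  induction t with
  | zero => exact ⟨0, by simp [nzd]⟩
  | succ t ih =>
    obtain ⟨m, hm⟩ := ih
    refine ⟨b * m + 1, ?_⟩
    rw [nzd_step b hb m 1 (by omega), hm]
    simp

/-- the set of the points of a sequence -/
def seqPts {K : Type} [Field K] {n : ℕ} (x : ℕ → Fin (n + 1) → K) :
    Set (ℙ K (Fin (n + 1) → K)) :=
  {P | ∃ (m : ℕ) (h : x m ≠ 0), P = Projectivization.mk K (x m) h}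

/-- a rational curve gives a `b`-regular sequence with infinitely many points -/
theorem conv_regular {k : Type} [Field k] [NumberField k]
    (FF : Finset (MvPolynomial (Fin (n + 1)) k)) (b : ℕ) (hb : 2 ≤ b)
    (h : ¬ NoRatBar (FF : Set (MvPolynomial (Fin (n + 1)) k))) :
    ∃ (K : Type) (_ : Field K) (_ : NumberField K) (_ : Algebra k K) (x : ℕ → Fin (n + 1) → K),
      Module.Finite K (Submodule.span K (kerSeq b x)) ∧
      (∀ m, x m ≠ 0 ∧ ∀ F ∈ FF, MvPolynomial.aeval (x m) F = 0) ∧ (seqPts x).Infinite := by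
  classical
  obtain ⟨r, K, iK, iN, iA, M, g, v, h1, h2⟩ := conv_matrix FF h
  refine ⟨K, iK, iN, iA, fun m => M.mulVec ((g ^ nzd b hb m).mulVec v), ?_,
    fun m => h1 (nzd b hb m), ?_⟩
  · -- the kernel lies in the image of the space of matrices
    let Φ : Matrix (Fin r) (Fin r) K →ₗ[K] (ℕ → Fin (n + 1) → K) :=
      { toFun := fun A m => M.mulVec ((g ^ nzd b hb m).mulVec (A.mulVec v))
        map_add' := by
          intro A B
          funext m
          simp only [Matrix.add_mulVec, Matrix.mulVec_add, Pi.add_apply]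
        map_smul' := by
          intro c A
          funext m
          simp only [Matrix.smul_mulVec, Matrix.mulVec_smul, Pi.smul_apply, RingHom.id_apply] }
    have h3 : Submodule.span K (kerSeq b fun m => M.mulVec ((g ^ nzd b hb m).mulVec v)) ≤
        LinearMap.range Φ := by
      rw [Submodule.span_le]
      rintro _ ⟨e, c, hc, rfl⟩
      refine ⟨g ^ nzd b hb c, ?_⟩
      funext m
      show M.mulVec ((g ^ nzd b hb m).mulVec ((g ^ nzd b hb c).mulVec v)) =
        M.mulVec ((g ^ nzd b hb (b ^ e * m + c)).mulVec v)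
      rw [nzd_ker b hb e c hc, pow_add, ← Matrix.mulVec_mulVec]
    have h4 : Module.Finite K (LinearMap.range Φ) := inferInstance
    exact Submodule.finiteDimensional_of_le h3
  · refine h2.mono ?_
    rintro P ⟨m, h0, rfl⟩
    obtain ⟨t, rfl⟩ := nzd_surj b hb m
    exact ⟨t, h0, rfl⟩

end Pool.Agent.T6.H35.RS
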