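import Pool.Agent.T6.H35.RS.Sing

set_option autoImplicit false

/-!
# Varieties without rational curves satisfy the hypotheses
-/

namespace Pool.Agent.T6.H35.RS

open Pool.Agent.H533R3.SL Pool.Agent.TH717.GO Pool.Agent.TH138.LG

variable {n : ℕ}

theorem sand_core {k : Type} [Field k] [CharZero k] (FF : Set (MvPolynomial (Fin (n + 1)) k))
    (hhom : ∀ F ∈ FF, ∃ e, F.IsHomogeneous e) (G : MvPolynomial (Fin (n + 1)) k) {r : ℕ}
    (hcur : CurCond FF G (r * r)) {K : Type} [Field K] [Algebra k K]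
    (A : Matrix (Fin (n + 1)) (Fin r) K) (g : Matrix (Fin r) (Fin r) K) (y : Fin r → K)
    (hg : Neat g)
    (hX : ∀ m : ℕ, ∀ F ∈ FF, MvPolynomial.aeval (A.mulVec ((g ^ m).mulVec y)) F = 0)
    (hG1 : MvPolynomial.aeval (A.mulVec y) G ≠ 0 ∨
      MvPolynomial.aeval (A.mulVec (g.mulVec y)) G ≠ 0) (i i' : Fin (n + 1)) :
    A.mulVec y i * A.mulVec (g.mulVec y) i' = A.mulVec y i' * A.mulVec (g.mulVec y) i := by
  classical
  have hG := orb_core FF hhom G r hcur
  obtain ⟨⟨g', hgg'⟩, U, hU, hUe⟩ := hg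
  let L := AlgebraicClosure K
  let φ : K →+* L := algebraMap K L
  have hφ : Function.Injective φ := (algebraMap K L).injective
  have hgg : g'.map φ * g.map φ = 1 := by
    rw [← Matrix.map_mul, hgg', Matrix.map_one φ (map_zero φ) (map_one φ)]
  have heig : ∀ μ : L, Module.End.HasEigenvalue (Matrix.toLinAlgEquiv' (g.map φ)) μ →
      ∃ u ∈ U, (u : L) = μ := by
    intro μ hμ
    obtain ⟨w, hw⟩ := hμ.exists_hasEigenvector
    refine hUe μ w hw.2 ?_
    have := hw.apply_eq_smul
    rwa [Matrix.toLinAlgEquiv'_apply] at this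
  have hinj : Function.Injective (Matrix.toLinAlgEquiv' (g.map φ)) := by
    intro x y hxy
    rw [Matrix.toLinAlgEquiv'_apply, Matrix.toLinAlgEquiv'_apply] at hxy
    have := congrArg (g'.map φ).mulVec hxy
    rwa [Matrix.mulVec_mulVec, Matrix.mulVec_mulVec, hgg, Matrix.one_mulVec,
      Matrix.one_mulVec] at this
  have hpow : ∀ m : ℕ, (g.map φ) ^ m = (g ^ m).map φ := by
    intro m
    have h1 : g.map φ = φ.mapMatrix g := rfl
    rw [h1, ← map_pow]
    rfl
  let ℓ : (Fin r → L) →ₗ[L] (Fin (n + 1) → L) := (A.map φ).mulVecLin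
  have hℓ : ∀ x : Fin r → K, ℓ (φ ∘ x) = fun i => φ (A.mulVec x i) := by
    intro x
    funext i
    exact (RingHom.map_mulVec φ A x i).symm
  have hg2 : ∀ (C : Matrix (Fin r) (Fin r) K) (x : Fin r → K),
      (C.map φ).mulVec (φ ∘ x) = φ ∘ (C.mulVec x) := by
    intro C x
    funext i
    exact (RingHom.map_mulVec φ C x i).symm
  have hseq : ∀ m : ℕ, ℓ (((Matrix.toLinAlgEquiv' (g.map φ)) ^ m) (φ ∘ y)) =
      fun i => φ (A.mulVec ((g ^ m).mulVec y) i) := by
    intro m
    rw [← map_pow, Matrix.toLinAlgEquiv'_apply, hpow, hg2, hℓ]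
  have hval : ∀ (x : Fin (n + 1) → K) (F : MvPolynomial (Fin (n + 1)) k),
      (MvPolynomial.aeval fun i => φ (x i)) F = φ (MvPolynomial.aeval x F) :=
    fun x F => MvPolynomial.aeval_algebraMap_apply (A := K) L x F
  have hFs : ∀ F ∈ FF, ∀ m : ℕ, MvPolynomial.aeval
      (ℓ (((Matrix.toLinAlgEquiv' (g.map φ)) ^ m) (φ ∘ y))) F = 0 := by
    intro F hF m
    rw [hseq m, hval, hX m F hF, map_zero]
  have hseq1 : ℓ ((Matrix.toLinAlgEquiv' (g.map φ)) (φ ∘ y)) =
      fun i => φ (A.mulVec (g.mulVec y) i) := by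
    have := hseq 1
    simpa using this
  apply hφ
  rw [map_mul, map_mul]
  rcases hG1 with h | h
  · have h1 := hG L (Matrix.toLinAlgEquiv' (g.map φ)) U hU heig ℓ
      (φ ∘ y) hFs (by
        rw [hℓ, hval]
        intro h3
        exact h (hφ (by rw [h3, map_zero]))) i' i 1
    rw [hseq 1, hℓ, pow_one] at h1
    simp only at h1
    linear_combination h1
  · have h1 := step_back FF G r hG (Matrix.toLinAlgEquiv' (g.map φ)) hinj
      U hU heig ℓ (φ ∘ y) hFs (by
        rw [hseq1, hval]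
        intro h3
        exact h (hφ (by rw [h3, map_zero]))) i i'
    rw [hseq1, hℓ] at h1
    exact h1

/-- the zero set of `FF` and the complement of `G = 0`, if there are no nonconstant rational
curves on the zero set of `FF` which are not contained in `G = 0` -/
theorem tst_of {k : Type} [Field k] [CharZero k] (FF : Set (MvPolynomial (Fin (n + 1)) k))
    (hhom : ∀ F ∈ FF, ∃ e, F.IsHomogeneous e) (G : MvPolynomial (Fin (n + 1)) k) (e : ℕ)
    (hGe : G.IsHomogeneous e) (hcur : ∀ R, CurCond FF G R) {K : Type} [Field K] [Algebra k K] :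
    Tst (K := K) (fun a : Fin (n + 1) → K => ∀ F ∈ FF, MvPolynomial.aeval a F = 0)
      (fun a : Fin (n + 1) → K => a ≠ 0 ∧ MvPolynomial.aeval a G ≠ 0) where
  ne := fun _ h => h.1
  par := fun _ _ h hab hb => ⟨hb, fun h0 => h.2 (aeval_cross hb hab.symm G e hGe h0)⟩
  sand := fun s A g y hg hX hG1 i i' =>
    sand_core FF hhom G (hcur (s * s)) A g y hg hX
      (hG1.imp (fun h => h.2) (fun h => h.2)) i i'

end Pool.Agent.T6.H35.RS
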