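import Pool.Agent.T6.H35.RS.Loop

set_option autoImplicit false

/-!
# Paths in finite graphs labelled by invertible matrices
-/

namespace Pool.Agent.T6.H35.RS

open Pool.Agent.TH717.GO Pool.Agent.TH138.LG

/-- the matrix over the field of an invertible matrix over a subring -/
def gmat {K : Type} [Field K] (A : Subring K) (s : ℕ) :
    Matrix.GeneralLinearGroup (Fin s) A →* Matrix (Fin s) (Fin s) K :=
  (Units.coeHom (Matrix (Fin s) (Fin s) K)).comp (Matrix.GeneralLinearGroup.map A.subtype)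

theorem gmat_inj {K : Type} [Field K] (A : Subring K) (s : ℕ) : Function.Injective (gmat A s) := by
  intro a b h
  apply Units.ext
  ext i j
  have h1 : ((a : Matrix (Fin s) (Fin s) A) i j : K) = ((b : Matrix (Fin s) (Fin s) A) i j : K) :=
    congrFun (congrFun h i) j
  exact h1

/-- paths in a finite graph labelled by invertible matrices -/
theorem FinRep.inv {K : Type} [Field K] [CharZero K] {S : Type} [Monoid S] {s : ℕ} {V : Type}
    [Finite V] (E : V → V → Set (S × Matrix (Fin s) (Fin s) K)) (hE : ∀ i j, (E i j).Finite)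
    (hunit : ∀ i j, ∀ e ∈ E i j, IsUnit e.2) (i j : V) :
    FinRep (MonoidHom.snd S (Matrix (Fin s) (Fin s) K)) {z | Pth E i j z} := by
  classical
  let B : Type := Σ i : V, Σ j : V, ↥(E i j)
  have hB : Finite B := by
    have : ∀ i j, Finite ↥(E i j) := fun i j => (hE i j).to_subtype
    infer_instance
  have h1 : ∀ a : B, ∃ g : Matrix.GeneralLinearGroup (Fin s) K,
      (g : Matrix (Fin s) (Fin s) K) = a.2.2.1.2 := fun a => hunit _ _ _ a.2.2.2
  choose ρ hρ using h1
  have hR : Finite (Set.range ρ) := Set.finite_range ρ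
  obtain ⟨T, hT⟩ := fg_subring (Group.closure_finite_fg (Set.range ρ))
    (Subgroup.closure (Set.range ρ)).subtype
  let A : Subring K := Subring.closure (T : Set K)
  obtain ⟨N, hN, hp⟩ := exists_residue_closure T
  obtain ⟨p₁, hp₁N, hp₁⟩ := Nat.exists_infinite_primes (N + 1)
  obtain ⟨p₂, hp₂N, hp₂⟩ := Nat.exists_infinite_primes (p₁ + 1)
  have hnd : ∀ p, N + 1 ≤ p → ¬ p ∣ N := fun p hp h => by
    have := Nat.le_of_dvd (Nat.pos_of_ne_zero hN) h
    omega
  obtain ⟨F₁, i1, f1, hc1, ⟨φ₁⟩⟩ := hp p₁ hp₁ (hnd p₁ hp₁N)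
  obtain ⟨F₂, i2, f2, hc2, ⟨φ₂⟩⟩ := hp p₂ hp₂ (hnd p₂ (by omega))
  have hne : ringChar F₁ ≠ ringChar F₂ := by
    rw [hc1, hc2]
    omega
  -- lifts of the letters
  let lift : B → Matrix.GeneralLinearGroup (Fin s) A := fun a =>
    toSub A (Subgroup.closure (Set.range ρ)).subtype hT ⟨ρ a, Subgroup.subset_closure ⟨a, rfl⟩⟩
  have hlift : ∀ a, gmat A s (lift a) = a.2.2.1.2 := by
    intro a
    rw [← hρ a]
    rfl
  let ψ : S × Matrix.GeneralLinearGroup (Fin s) A →* S × Matrix (Fin s) (Fin s) K :=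
    (MonoidHom.id S).prodMap (gmat A s)
  have hψ : Function.Injective ψ := by
    rintro ⟨a, g⟩ ⟨b, h⟩ hab
    have h2 := Prod.mk.inj hab
    exact Prod.ext h2.1 (gmat_inj A s h2.2)
  let E' : V → V → Set (S × Matrix.GeneralLinearGroup (Fin s) A) := fun i j => ψ ⁻¹' (E i j)
  have hE' : ∀ i j, (E' i j).Finite := fun i j => (hE i j).preimage hψ.injOn
  have h6 : ψ '' {z | Pth E' i j z} = {z | Pth E i j z} := by
    apply Set.Subset.antisymm
    · rintro _ ⟨z, hz, rfl⟩
      have hz' : Pth E' i j z := hz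
      show Pth E i j (ψ z)
      clear hz
      induction hz' with
      | nil => rw [map_one]; exact .nil
      | cons _ he ih =>
        rw [map_mul]
        exact ih.cons he
    · intro z hz
      have hz' : Pth E i j z := hz
      clear hz
      induction hz' with
      | nil => exact ⟨1, .nil, map_one ψ⟩
      | @cons j k z e _ he ih =>
        obtain ⟨z', hz', hzz⟩ := ih
        let a : B := ⟨j, k, ⟨e, he⟩⟩
        have h7 : ψ (e.1, lift a) = e := Prod.ext rfl (hlift a)
        refine ⟨z' * (e.1, lift a), Pth.cons hz' ?_, ?_⟩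
        · show ψ _ ∈ E j k
          rw [h7]
          exact he
        · rw [map_mul, h7, hzz]
  let C : Type := Matrix.GeneralLinearGroup (Fin s) F₁ × Matrix.GeneralLinearGroup (Fin s) F₂
  let π : S × Matrix.GeneralLinearGroup (Fin s) A →* C :=
    ((Matrix.GeneralLinearGroup.map φ₁).prod (Matrix.GeneralLinearGroup.map φ₂)).comp
      (MonoidHom.snd S _)
  have h3 := FinRep.colour ((gmat A s).comp (MonoidHom.snd S _)) π (by
      intro z hz
      have hz1 : Matrix.GeneralLinearGroup.map φ₁ z.2 = 1 := congrArg Prod.fst hz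
      have hz2 : Matrix.GeneralLinearGroup.map φ₂ z.2 = 1 := congrArg Prod.snd hz
      refine ⟨⟨gmat A s z.2⁻¹, ?_⟩, ker_two_neat A φ₁ φ₂ hne (MonoidHom.id _) z.2 hz1 hz2⟩
      show gmat A s z.2⁻¹ * gmat A s z.2 = 1
      rw [← map_mul, inv_mul_cancel, map_one]) E' hE' i j
  have h5 := FinRep.image (φ := MonoidHom.snd S (Matrix (Fin s) (Fin s) K)) ψ 1 1 (by
    intro z
    rw [one_mul, mul_one]
    rfl) h3
  rwa [h6] at h5

end Pool.Agent.T6.H35.RS
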