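import Pool.Agent.T6.H35.RS.Rep

set_option autoImplicit false

/-!
# Paths in finite labelled graphs whose loops are neat
-/

namespace Pool.Agent.T6.H35.RS

open Pool.Agent.TH717.GO Pool.Agent.TH138.LG
open scoped Pointwise

variable {K : Type} [Field K]

section

variable {N : Type} [Monoid N] {s : ℕ}

/-- a set of neat elements, closed under products, has a finite set of
representatives: a set which spans -/
theorem FinRep.loop (φ : N →* Matrix (Fin s) (Fin s) K)
    (Γ : Set N) (h1 : (1 : N) ∈ Γ) (hmul : ∀ x ∈ Γ, ∀ y ∈ Γ, x * y ∈ Γ)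
    (hC : ∀ x ∈ Γ, Neat (φ x)) : FinRep φ Γ := by
  classical
  -- a finite subset with the same span
  obtain ⟨R, hRΓ, hRfin, hRspan⟩ : ∃ R ⊆ Γ, R.Finite ∧
      ∀ x ∈ Γ, φ x ∈ Submodule.span K (φ '' R) := by
    have h2 : (Submodule.span K (φ '' Γ)).FG := IsNoetherian.noetherian _
    obtain ⟨T, hT1, hT2⟩ := (Submodule.fg_span_iff_fg_span_finset_subset (φ '' Γ)).1 h2
    have h3 : ∀ t ∈ T, ∃ x ∈ Γ, φ x = t := fun t ht => hT1 ht
    choose! f hf1 hf2 using h3
    refine ⟨f '' (T : Set _), ?_, (T.finite_toSet).image f, ?_⟩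
    · rintro _ ⟨t, ht, rfl⟩
      exact hf1 t ht
    · intro x hx
      have h4 : φ '' (f '' (T : Set _)) = (T : Set _) := by
        ext t
        constructor
        · rintro ⟨_, ⟨u, hu, rfl⟩, rfl⟩
          rw [hf2 u hu]
          exact hu
        · intro ht
          exact ⟨f t, ⟨t, ht, rfl⟩, hf2 t ht⟩
      rw [h4, ← hT2]
      exact Submodule.subset_span ⟨x, hx, rfl⟩
  refine ⟨insert 1 R, Set.insert_subset h1 hRΓ, hRfin.insert 1, ?_⟩
  intro z hz n On Off hT ι A y hOn hdich hOff
  have hpow : ∀ x ∈ Γ, ∀ m : ℕ, x ^ m ∈ Γ := by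
    intro x hx m
    induction m with
    | zero => rw [pow_zero]; exact h1
    | succ m ih => rw [pow_succ]; exact hmul _ ih _ hx
  have hval1 : ∀ t, val (A t) (φ 1) (y t) = (A t).mulVec (y t) := by
    intro t
    unfold val
    rw [map_one, Matrix.one_mulVec]
  rcases hdich with ⟨t0, ht0⟩ | hall
  · -- one context
    have hOff0 := hOff t0
    set A0 := A t0 with hA0
    set y0 := y t0 with hy0
    have hOn0 : ∀ x ∈ Γ, On (val A0 (φ x) y0) := fun x hx => hOn t0 x hx
    -- some `r ∈ R` has nonzero value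
    obtain ⟨r, hrR, hr⟩ : ∃ r ∈ R, val A0 (φ r) y0 ≠ 0 := by
      by_contra hcon
      push Not at hcon
      let ψ : Matrix (Fin s) (Fin s) K →ₗ[K] (Fin (n + 1) → K) :=
        { toFun := fun x => val A0 x y0
          map_add' := by
            intro a b
            simp only [val, Matrix.add_mulVec, Matrix.mulVec_add]
          map_smul' := by
            intro c a
            simp only [val, Matrix.smul_mulVec, Matrix.mulVec_smul, RingHom.id_apply] }
      have h3 : Submodule.span K (φ '' R) ≤ LinearMap.ker ψ := by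
        rw [Submodule.span_le]
        rintro _ ⟨x, hx, rfl⟩
        exact hcon x hx
      have h4 : ψ (φ z) = 0 := h3 (hRspan z hz)
      exact hT.ne _ hOff0 h4
    have hrΓ := hRΓ hrR
    obtain ⟨⟨r', hr1⟩, -⟩ := hC r hrΓ
    -- some `z r^(m+1)` has nonzero value
    obtain ⟨m, hm⟩ : ∃ m : ℕ, val A0 (φ (z * r ^ (m + 1))) y0 ≠ 0 := by
      by_contra hcon
      push Not at hcon
      have hinj : Function.Injective (Matrix.toLinAlgEquiv' (φ r)) := by
        intro a b hab
        rw [Matrix.toLinAlgEquiv'_apply, Matrix.toLinAlgEquiv'_apply] at hab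
        have := congrArg r'.mulVec hab
        rwa [Matrix.mulVec_mulVec, Matrix.mulVec_mulVec, hr1, Matrix.one_mulVec,
          Matrix.one_mulVec] at this
      let ψ : (Fin s → K) →ₗ[K] (Fin (n + 1) → K) := (A0 * φ z).mulVecLin
      have h3 : Submodule.span K (Set.range fun m : ℕ =>
          ((Matrix.toLinAlgEquiv' (φ r)) ^ (m + 1)) y0) ≤ LinearMap.ker ψ := by
        rw [Submodule.span_le]
        rintro _ ⟨m, rfl⟩
        show (A0 * φ z).mulVec (((Matrix.toLinAlgEquiv' (φ r)) ^ (m + 1)) y0) = 0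
        rw [← map_pow, Matrix.toLinAlgEquiv'_apply, ← hcon m]
        unfold val
        rw [map_mul, map_pow]
        simp only [Matrix.mulVec_mulVec, Matrix.mul_assoc]
      have h4 := h3 (mem_span_pow (Matrix.toLinAlgEquiv' (φ r)) hinj y0)
      have h5 : (A0 * φ z).mulVec y0 = 0 := h4
      apply hT.ne _ hOff0
      unfold val
      rw [Matrix.mulVec_mulVec]
      exact h5
    have hrm : r ^ (m + 1) ∈ Γ := hpow r hrΓ _
    -- `z` and `z r^(m+1)` have the same point
    have p1 : Par (val A0 (φ z) y0) (val A0 (φ (z * r ^ (m + 1))) y0) := by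
      have h3 := hT.sand _ (A0 * φ z) _ y0 (hC _ hrm) (fun k => by
        have h4 := hOn0 (z * (r ^ (m + 1)) ^ k) (hmul _ hz _ (hpow _ hrm k))
        unfold val at h4
        rw [map_mul, map_pow φ _ k] at h4
        simpa only [Matrix.mulVec_mulVec, Matrix.mul_assoc] using h4) (Or.inl (by
        have h4 := hOff0
        unfold val at h4
        rwa [Matrix.mulVec_mulVec] at h4))
      unfold val
      rw [map_mul]
      simpa only [Matrix.mulVec_mulVec, Matrix.mul_assoc] using h3
    have o1 : Off (val A0 (φ (z * r ^ (m + 1))) y0) := hT.par _ _ hOff0 p1 hm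
    -- `z r^(m+1)` and `r` have the same point
    have p2 : Par (val A0 (φ r) y0) (val A0 (φ (z * r ^ (m + 1))) y0) := by
      have hg : z * r ^ m ∈ Γ := hmul _ hz _ (hpow r hrΓ m)
      have e1 : z * r ^ (m + 1) = (z * r ^ m) * r := by rw [pow_succ, mul_assoc]
      rw [e1] at o1 ⊢
      have h3 := hT.sand _ A0 _ ((φ r).mulVec y0) (hC _ hg) (fun k => by
        have h4 := hOn0 ((z * r ^ m) ^ k * r) (hmul _ (hpow _ hg k) _ hrΓ)
        unfold val at h4
        rw [map_mul, map_pow φ _ k] at h4
        simpa only [Matrix.mulVec_mulVec, Matrix.mul_assoc] using h4) (Or.inr (by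
        unfold val at o1
        rw [map_mul φ _ r] at o1
        simpa only [Matrix.mulVec_mulVec, Matrix.mul_assoc] using o1))
      unfold val
      rw [map_mul φ _ r]
      simpa only [Matrix.mulVec_mulVec, Matrix.mul_assoc] using h3
    refine ⟨r, Set.mem_insert_of_mem _ hrR, fun t => ?_⟩
    obtain rfl := ht0 t
    exact ⟨hT.par _ _ o1 p2.symm hr, p1.trans p2.symm hm⟩
  · -- all values are nonzero
    refine ⟨1, Set.mem_insert _ _, fun t => ?_⟩
    have o1 := hall t 1 h1
    refine ⟨o1, ?_⟩
    rw [hval1] at o1 ⊢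
    refine Par.symm ?_
    exact hT.sand _ (A t) _ (y t) (hC z hz) (fun k => by
      have h4 := hOn t (z ^ k) (hpow z hz k)
      unfold val at h4
      rwa [map_pow] at h4) (Or.inl o1)

/-- the labels of the paths from `i` in a labelled graph -/
inductive Pth {V : Type} (E : V → V → Set N) (i : V) : V → N → Prop
  | nil : Pth E i i 1
  | cons {j k : V} {z e : N} : Pth E i j z → e ∈ E j k → Pth E i k (z * e)

theorem Pth.trans {V : Type} {E : V → V → Set N} {i j k : V} {z w : N} (h : Pth E i j z)
    (h' : Pth E j k w) : Pth E i k (z * w) := by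
  induction h' with
  | nil => rw [mul_one]; exact h
  | cons _ he ih => rw [← mul_assoc]; exact ih.cons he

theorem Pth.single {V : Type} {E : V → V → Set N} {i j : V} {e : N} (h : e ∈ E i j) :
    Pth E i j e := by
  have := (Pth.nil (E := E) (i := i)).cons h
  rwa [one_mul] at this

theorem Pth.mono {V : Type} {E E' : V → V → Set N} (hE : ∀ i j, E i j ⊆ E' i j) {i j : V} {z : N}
    (h : Pth E i j z) : Pth E' i j z := by
  induction h with
  | nil => exact .nil
  | cons _ he ih => exact ih.cons (hE _ _ he)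

/-- the edges between vertices in `D` -/
def ED {V : Type} (E : V → V → Set N) (D : Finset V) : V → V → Set N :=
  fun i j => {e | e ∈ E i j ∧ i ∈ D ∧ j ∈ D}

theorem ED_sub {V : Type} (E : V → V → Set N) (D : Finset V) (i j : V) : ED E D i j ⊆ E i j :=
  fun _ h => h.1

theorem Pth.last {V : Type} [DecidableEq V] {E : V → V → Set N} {D : Finset V} {q q' : V} {z : N}
    (h : Pth (ED E D) q q' z) : q' = q ∨ ∃ g q₁ e w, q₁ ∈ D.erase q ∧ e ∈ E q q₁ ∧
      Pth (ED E D) q q g ∧ Pth (ED E (D.erase q)) q₁ q' w ∧ z = g * (e * w) := by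
  induction h with
  | nil => exact Or.inl rfl
  | @cons j k z e hz he ih =>
    by_cases hkq : k = q
    · exact Or.inl hkq
    · right
      obtain ⟨he1, hj, hk⟩ := he
      rcases ih with rfl | ⟨g, q₁, e₁, w, h1, h2, h3, h4, rfl⟩
      · refine ⟨z, k, e, 1, Finset.mem_erase.2 ⟨hkq, hk⟩, he1, hz, .nil, ?_⟩
        rw [mul_one]
      · by_cases hjq : j = q
        · subst hjq
          refine ⟨g * (e₁ * w), k, e, 1, Finset.mem_erase.2 ⟨hkq, hk⟩, he1, hz, .nil, ?_⟩
          rw [mul_one]
        · refine ⟨g, q₁, e₁, w * e, h1, h2, h3, h4.cons ⟨he1, Finset.mem_erase.2 ⟨hjq, hj⟩,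
            Finset.mem_erase.2 ⟨hkq, hk⟩⟩, ?_⟩
          simp only [mul_assoc]

/-- paths in a finite graph whose loops are neat have finitely many representatives -/
theorem FinRep.paths_aux (φ : N →* Matrix (Fin s) (Fin s) K) {V : Type} (E : V → V → Set N)
    (hE : ∀ i j, (E i j).Finite) (hC : ∀ i z, Pth E i i z → Neat (φ z)) (D : Finset V) :
    ∀ q ∈ D, ∀ q', FinRep φ {z | Pth (ED E D) q q' z} := by
  classical
  induction D using Finset.strongInduction with
  | H D ih =>
    intro q hq q'
    have hloop : FinRep φ {z | Pth (ED E D) q q z} := by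
      refine FinRep.loop φ _ Pth.nil (fun x hx y hy => Pth.trans hx hy) ?_
      intro x hx
      exact hC q x (Pth.mono (ED_sub E D) hx)
    have hP2 : ∀ q₁ ∈ D.erase q, FinRep φ {z | Pth (ED E (D.erase q)) q₁ q' z} := by
      intro q₁ hq₁
      exact ih (D.erase q) (Finset.erase_ssubset hq) q₁ hq₁ q'
    let κ : Type := Option (Σ q₁ : ↥(D.erase q), ↥(E q q₁))
    have hκ : Finite κ := by
      have : ∀ q₁ : ↥(D.erase q), Finite ↥(E q q₁) := fun q₁ => (hE _ _).to_subtype
      infer_instance
    refine FinRep.cover (κ := κ) (fun c => match c with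
      | none => {z | q' = q ∧ Pth (ED E D) q q z}
      | some a => {z | Pth (ED E D) q q z} *
          ({(a.2 : N)} * {z | Pth (ED E (D.erase q)) a.1 q' z})) ?_ ?_ ?_
    · rintro (_ | ⟨q₁, e⟩)
      · by_cases hqq : q' = q
        · have : {z | q' = q ∧ Pth (ED E D) q q z} = {z | Pth (ED E D) q q z} := by
            ext z
            simp [hqq]
          show FinRep φ {z | q' = q ∧ Pth (ED E D) q q z}
          rw [this]
          exact hloop
        · have : {z | q' = q ∧ Pth (ED E D) q q z} = ∅ := by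
            ext z
            simp [hqq]
          show FinRep φ {z | q' = q ∧ Pth (ED E D) q q z}
          rw [this]
          exact FinRep.of_finite Set.finite_empty
      · exact hloop.mul ((FinRep.of_finite (Set.finite_singleton _)).mul (hP2 _ q₁.2))
    · rintro (_ | ⟨q₁, e⟩)
      · rintro z ⟨rfl, hz⟩
        exact hz
      · rintro _ ⟨g, hg, _, ⟨e', he', w, hw, rfl⟩, rfl⟩
        rw [Set.mem_singleton_iff] at he'
        subst he'
        have hq1 : (q₁ : V) ∈ D := Finset.mem_of_mem_erase q₁.2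
        have h1 : (e : N) ∈ ED E D q q₁ := ⟨e.2, hq, hq1⟩
        have h2 : Pth (ED E D) q₁ q' w := by
          refine Pth.mono ?_ hw
          rintro i j x ⟨hx, hi, hj⟩
          exact ⟨hx, Finset.mem_of_mem_erase hi, Finset.mem_of_mem_erase hj⟩
        exact Pth.trans hg (Pth.trans (Pth.single h1) h2)
    · intro z hz
      rcases Pth.last hz with hqq | ⟨g, q₁, e, w, h1, h2, h3, h4, rfl⟩
      · refine ⟨none, hqq, ?_⟩
        have hz' := hz
        rw [Set.mem_ofPred_eq, hqq] at hz'
        exact hz'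
      · exact ⟨some ⟨⟨q₁, h1⟩, ⟨e, h2⟩⟩, g, h3, _, ⟨e, Set.mem_singleton _, w, h4, rfl⟩, rfl⟩

theorem FinRep.paths (φ : N →* Matrix (Fin s) (Fin s) K) {V : Type} [Finite V] (E : V → V → Set N)
    (hE : ∀ i j, (E i j).Finite) (hC : ∀ i z, Pth E i i z → Neat (φ z)) (i j : V) :
    FinRep φ {z | Pth E i j z} := by
  classical
  have : Fintype V := Fintype.ofFinite V
  have h := FinRep.paths_aux φ E hE hC Finset.univ i (Finset.mem_univ i) j
  have e : ∀ i j, ED E Finset.univ i j = E i j := by
    intro i j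
    ext x
    simp [ED]
  have e' : ED E Finset.univ = E := by
    funext i j
    exact e i j
  rwa [e'] at h

/-- the same with a finite group of colours: paths whose colour is trivial are neat -/
theorem FinRep.colour (φ : N →* Matrix (Fin s) (Fin s) K) {C : Type} [Group C] [Finite C] (π : N →* C)
    (hC : ∀ z, π z = 1 → Neat (φ z)) {V : Type} [Finite V] (E : V → V → Set N)
    (hE : ∀ i j, (E i j).Finite) (i j : V) : FinRep φ {z | Pth E i j z} := by
  classical
  let E' : V × C → V × C → Set N := fun a b => {e | e ∈ E a.1 b.1 ∧ b.2 = a.2 * π e}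
  have hE' : ∀ a b, (E' a b).Finite := fun a b => (hE a.1 b.1).subset fun e he => he.1
  have h1 : ∀ a b z, Pth E' a b z → Pth E a.1 b.1 z ∧ b.2 = a.2 * π z := by
    intro a b z h
    induction h with
    | nil => exact ⟨.nil, by rw [map_one, mul_one]⟩
    | cons _ he ih =>
      refine ⟨ih.1.cons he.1, ?_⟩
      rw [he.2, ih.2, map_mul, mul_assoc]
  have h2 : ∀ (i j : V) z, Pth E i j z → Pth E' (i, 1) (j, π z) z := by
    intro i j z h
    induction h with
    | nil => rw [map_one]; exact .nil
    | @cons j k z e _ he ih =>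
      refine Pth.cons ih ⟨he, ?_⟩
      show π (z * e) = π z * π e
      rw [map_mul]
  have h3 : ∀ c : C, FinRep φ {z | Pth E' (i, 1) (j, c) z} := by
    intro c
    refine FinRep.paths φ E' hE' ?_ _ _
    intro a z hz
    apply hC
    have h4 := (h1 _ _ _ hz).2
    exact (mul_eq_left.1 h4.symm)
  refine FinRep.cover (κ := C) (fun c => {z | Pth E' (i, 1) (j, c) z}) h3 ?_ ?_
  · intro c z hz
    exact (h1 _ _ _ hz).1
  · intro z hz
    exact ⟨π z, h2 i j z hz⟩

end

end Pool.Agent.T6.H35.RS
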