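import Pool.Agent.T6.H35.RS.Fib

set_option autoImplicit false

/-!
# `b`-regular sequences
-/

namespace Pool.Agent.T6.H35.RS

open Pool.Agent.TH717.GO Pool.Agent.TH138.LG
open scoped LinearAlgebra.Projectivization

/-- the `b`-kernel of a sequence -/
def kerSeq (b : ℕ) {α : Type} (f : ℕ → α) : Set (ℕ → α) :=
  {g | ∃ e c : ℕ, c < b ^ e ∧ g = fun m => f (b ^ e * m + c)}

/-- the index reached from `m` by appending the digits of a word -/
def idx {b : ℕ} : List (Fin b) → ℕ → ℕ
  | [], m => m
  | c :: w, m => idx w (b * m + c)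

theorem idx_eq {b : ℕ} (w : List (Fin b)) :
    ∃ c < b ^ w.length, ∀ m, idx w m = b ^ w.length * m + c := by
  induction w with
  | nil => exact ⟨0, by simp, fun m => by simp [idx]⟩
  | cons a w ih =>
    obtain ⟨c, hc, h⟩ := ih
    refine ⟨b ^ w.length * a + c, ?_, fun m => ?_⟩
    · rw [List.length_cons, pow_succ]
      calc b ^ w.length * a + c < b ^ w.length * a + b ^ w.length := by omega
        _ = b ^ w.length * (a + 1) := by ring
        _ ≤ b ^ w.length * b := Nat.mul_le_mul_left _ a.2
    · show idx w (b * m + a) = _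
      rw [h, List.length_cons, pow_succ]
      ring

theorem exists_idx {b : ℕ} (e c : ℕ) (hc : c < b ^ e) :
    ∃ w : List (Fin b), ∀ m, idx w m = b ^ e * m + c := by
  induction e generalizing c with
  | zero =>
    refine ⟨[], fun m => ?_⟩
    have : c = 0 := by simpa using hc
    subst this
    simp [idx]
  | succ e ih =>
    have hb : 0 < b ^ e := by
      rcases Nat.eq_zero_or_pos (b ^ e) with h | h
      · rw [pow_succ, h, zero_mul] at hc
        omega
      · exact h
    obtain ⟨w, hw⟩ := ih (c % b ^ e) (Nat.mod_lt _ hb)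
    have hq : c / b ^ e < b := by
      rw [Nat.div_lt_iff_lt_mul hb, mul_comm, ← pow_succ]
      exact hc
    refine ⟨⟨c / b ^ e, hq⟩ :: w, fun m => ?_⟩
    show idx w (b * m + c / b ^ e) = _
    rw [hw, mul_add, add_assoc, Nat.div_add_mod, pow_succ]
    ring

section

variable {K : Type} [Field K] {n b : ℕ}

/-- the operator `f ↦ (m ↦ f (b m + c))` -/
def shiftOp (K : Type) [Field K] (n b c : ℕ) :
    (ℕ → Fin (n + 1) → K) →ₗ[K] (ℕ → Fin (n + 1) → K) where
  toFun f := fun m => f (b * m + c)
  map_add' _ _ := rfl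
  map_smul' _ _ := rfl

theorem shiftOp_mem (x : ℕ → Fin (n + 1) → K) (c : Fin b) (f : ℕ → Fin (n + 1) → K)
    (hf : f ∈ Submodule.span K (kerSeq b x)) :
    shiftOp K n b c f ∈ Submodule.span K (kerSeq b x) := by
  have h1 : Submodule.span K (kerSeq b x) ≤
      (Submodule.span K (kerSeq b x)).comap (shiftOp K n b c) := by
    rw [Submodule.span_le]
    rintro _ ⟨e, c', hc', rfl⟩
    refine Submodule.subset_span ⟨e + 1, b ^ e * c + c', ?_, ?_⟩
    · rw [pow_succ]
      calc b ^ e * c + c' < b ^ e * c + b ^ e := by omega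
        _ = b ^ e * (c + 1) := by ring
        _ ≤ b ^ e * b := Nat.mul_le_mul_left _ c.2
    · funext m
      show x (b ^ e * (b * m + c) + c') = _
      congr 1
      rw [pow_succ]
      ring
  exact h1 hf

/-- a linear representation of a `b`-regular sequence -/
theorem exists_linrep (x : ℕ → Fin (n + 1) → K)
    (hfd : FiniteDimensional K (Submodule.span K (kerSeq b x))) :
    ∃ (t : ℕ) (A : ℕ → Matrix (Fin (n + 1)) (Fin t) K) (ρ : Fin b → Matrix (Fin t) (Fin t) K)
      (y : Fin t → K), t = Module.finrank K (Submodule.span K (kerSeq b x)) ∧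
      ∀ (w : List (Fin b)) (m : ℕ),
        (A m).mulVec ((w.map ρ).prod.mulVec y) = x (idx w m) := by
  classical
  let W := Submodule.span K (kerSeq b x)
  let B : Module.Basis (Fin (Module.finrank K W)) K W := Module.finBasis K W
  let T : Fin b → W →ₗ[K] W := fun c => (shiftOp K n b c).restrict (shiftOp_mem x c)
  have hT : ∀ c (f : W) m, (T c f : ℕ → Fin (n + 1) → K) m = (f : ℕ → Fin (n + 1) → K) (b * m + c) :=
    fun c f m => rfl
  let x0 : W := ⟨x, by
    refine Submodule.subset_span ⟨0, 0, by simp, ?_⟩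
    funext m
    simp⟩
  let evm : ℕ → W →ₗ[K] (Fin (n + 1) → K) := fun m => (LinearMap.proj m).comp W.subtype
  refine ⟨_, fun m => LinearMap.toMatrix B (Pi.basisFun K (Fin (n + 1))) (evm m),
    fun c => LinearMap.toMatrix B B (T c), B.repr x0, rfl, ?_⟩
  have hprod : ∀ w : List (Fin b), ((w.map fun c => LinearMap.toMatrix B B (T c)).prod).mulVec
      (B.repr x0) = B.repr ((w.map T).prod x0) := by
    intro w
    induction w with
    | nil => simp
    | cons c w ih =>
      rw [List.map_cons, List.prod_cons, ← Matrix.mulVec_mulVec, ih, List.map_cons, List.prod_cons,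
        LinearMap.toMatrix_mulVec_repr]
      rfl
  intro w m
  rw [hprod]
  have h1 : (LinearMap.toMatrix B (Pi.basisFun K (Fin (n + 1))) (evm m)).mulVec
      (B.repr ((w.map T).prod x0)) = (Pi.basisFun K (Fin (n + 1))).repr
        (evm m ((w.map T).prod x0)) := LinearMap.toMatrix_mulVec_repr _ _ _ _
  rw [h1]
  have h2 : ∀ (w : List (Fin b)) (m : ℕ) , evm m ((w.map T).prod x0) = x (idx w m) := by
    intro w
    induction w with
    | nil => intro m; rfl
    | cons c w ih =>
      intro m
      show (((T c * (w.map T).prod) x0 : W) : ℕ → Fin (n + 1) → K) m = x (idx w (b * m + c))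
      rw [← ih (b * m + c)]
      rfl
  rw [h2]
  funext j
  simp

end

/-- the sequence of points of a sequence of nonzero vectors -/
def ptSeq {K : Type} [Field K] {n : ℕ} (x : ℕ → Fin (n + 1) → K) (h : ∀ m, x m ≠ 0) :
    ℕ → ℙ K (Fin (n + 1) → K) := fun m => Projectivization.mk K (x m) (h m)

/-- **`b`-regular sequences of points** -/
theorem regular_seq (n d s b : ℕ) (hb : 2 ≤ b) :
    ∃ N : ℕ, ∀ (k : Type) [Field k] [CharZero k] (FF : Set (MvPolynomial (Fin (n + 1)) k)),
      (∀ F ∈ FF, ∃ e ≤ d, F.IsHomogeneous e) → NoRatBar FF →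
      ∀ (K : Type) [Field K] [Algebra k K] (x : ℕ → Fin (n + 1) → K),
        Module.Finite K (Submodule.span K (kerSeq b x)) →
        Module.finrank K (Submodule.span K (kerSeq b x)) ≤ s →
        (∀ m, ∀ F ∈ FF, MvPolynomial.aeval (x m) F = 0) →
        (∀ m, x m ≠ 0 → ∃ m' ≤ N, x m' ≠ 0 ∧ Par (x m) (x m')) ∧
        ∀ h0 : ∀ m, x m ≠ 0, (kerSeq b (ptSeq x h0)).encard ≤ (N : ℕ∞) := by
  classical
  let E : Unit → Unit → Set (FreeMonoid (Fin b)) := fun _ _ => Set.range FreeMonoid.of
  have hpth : ∀ w : FreeMonoid (Fin b), Pth E () () w := by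
    have key : ∀ l : List (Fin b), Pth E () () (FreeMonoid.ofList l) := by
      intro l
      induction l using List.reverseRecOn with
      | nil => exact .nil
      | append_singleton l a ih =>
        rw [FreeMonoid.ofList_append]
        exact ih.cons ⟨a, rfl⟩
    exact fun w => key w.toList
  have hu : ∀ t : ℕ, _ := fun t => uniform_bar E (fun _ _ => Set.finite_range _) n d t
  choose R hR1 hR2 hR3 using hu
  let R0 : ℕ → Finset (FreeMonoid (Fin b)) := fun t => (hR2 t () ()).toFinset
  let Nt : ℕ → ℕ := fun t => (R0 t).card + ∑ w ∈ R0 t, b ^ (FreeMonoid.toList w).length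
  refine ⟨∑ t ∈ Finset.range (s + 1), Nt t, ?_⟩
  intro k _ _ FF hhom hno K _ _ x hfin hs hX
  obtain ⟨t, A, ρ, y, ht, hrep⟩ := exists_linrep x hfin
  rw [← ht] at hs
  have hNt : Nt t ≤ ∑ t ∈ Finset.range (s + 1), Nt t :=
    Finset.single_le_sum (f := Nt) (fun _ _ => Nat.zero_le _) (Finset.mem_range.2 (by omega))
  let ρ' : FreeMonoid (Fin b) →* Matrix (Fin t) (Fin t) K := FreeMonoid.lift ρ
  have hval : ∀ (m : ℕ) (w : FreeMonoid (Fin b)), val (A m) (ρ' w) y =
      x (idx (FreeMonoid.toList w) m) := by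
    intro m w
    rw [← hrep (FreeMonoid.toList w) m, ← lift_prod, FreeMonoid.ofList_toList]
    rfl
  have hdom := hR3 t k FF hhom hno K ρ' () ()
  refine ⟨?_, ?_⟩
  · intro m hm
    obtain ⟨w, hw⟩ := exists_idx (b := b) m m (Nat.lt_pow_self (by omega))
    have hw0 : idx w 0 = m := by rw [hw 0, mul_zero, zero_add]
    obtain ⟨r, hr, h1, h2⟩ := (hdom (FreeMonoid.ofList w) (hpth _)).1 (A 0) y (fun z _ => by
      rw [hval]
      exact hX _) (by
      rw [hval, FreeMonoid.toList_ofList, hw0]
      exact hm)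
    rw [hval] at h1
    rw [hval, hval, FreeMonoid.toList_ofList, hw0] at h2
    refine ⟨_, ?_, h1, h2⟩
    obtain ⟨c, hc, hidx⟩ := idx_eq (FreeMonoid.toList r)
    have hrR : r ∈ R0 t := (Set.Finite.mem_toFinset _).2 hr
    have h3 : b ^ (FreeMonoid.toList r).length ≤
        ∑ w ∈ R0 t, b ^ (FreeMonoid.toList w).length :=
      Finset.single_le_sum (f := fun w : FreeMonoid (Fin b) => b ^ (FreeMonoid.toList w).length)
        (fun _ _ => Nat.zero_le _) hrR
    have h4 : Nt t = (R0 t).card + ∑ w ∈ R0 t, b ^ (FreeMonoid.toList w).length := rfl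
    rw [hidx 0, mul_zero, zero_add]
    omega
  · intro h0
    have hsub : kerSeq b (ptSeq x h0) ⊆
        (fun (r : FreeMonoid (Fin b)) (m : ℕ) => ptSeq x h0 (idx (FreeMonoid.toList r) m)) ''
          (R t () ()) := by
      rintro _ ⟨e, c, hc, rfl⟩
      obtain ⟨w, hw⟩ := exists_idx e c hc
      obtain ⟨r, hr, h1⟩ := (hdom (FreeMonoid.ofList w) (hpth _)).2
      refine ⟨r, hr, ?_⟩
      funext m
      have h2 := h1 (A m) y (fun z _ => by
        rw [hval]
        exact hX _) (fun z _ => by
        rw [hval]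
        exact h0 _)
      rw [hval, hval, FreeMonoid.toList_ofList, hw] at h2
      exact (mk_eq_of_cross (h0 _) (h0 _) h2).symm
    refine (Set.encard_le_encard hsub).trans ((Set.encard_image_le _ _).trans ?_)
    rw [(hR2 t () ()).encard_eq_coe_toFinset_card]
    have h4 : Nt t = (R0 t).card + ∑ w ∈ R0 t, b ^ (FreeMonoid.toList w).length := rfl
    have h5 : (hR2 t () ()).toFinset.card ≤ ∑ t ∈ Finset.range (s + 1), Nt t := by
      have : (hR2 t () ()).toFinset.card = (R0 t).card := rfl
      omega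
    exact_mod_cast h5

end Pool.Agent.T6.H35.RS
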