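import Pool.Agent.TH138.LG.Words2
import Pool.Agent.TH717.GO.NI

set_option autoImplicit false

/-!
# Finite sets of representatives for products of matrices: calculus
-/

namespace Pool.Agent.T6.H35.RS

open Pool.Agent.TH717.GO Pool.Agent.TH138.LG
open scoped Pointwise

variable {K : Type} [Field K]

/-- the vectors `a`, `b` are proportional (one of them may be zero) -/
def Par {n : ℕ} (a b : Fin (n + 1) → K) : Prop := ∀ i j, a i * b j = a j * b i

theorem Par.refl {n : ℕ} (a : Fin (n + 1) → K) : Par a a := fun _ _ => mul_comm _ _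

theorem Par.symm {n : ℕ} {a b : Fin (n + 1) → K} (h : Par a b) : Par b a := by
  intro i j
  have := h i j
  linear_combination -this

theorem Par.trans {n : ℕ} {a b c : Fin (n + 1) → K} (h : Par a b) (h' : Par b c) (hb : b ≠ 0) :
    Par a c := by
  obtain ⟨t, ht⟩ : ∃ t, b t ≠ 0 := by
    by_contra hcon
    push Not at hcon
    exact hb (funext hcon)
  intro i j
  have h1 : (a i * c j - a j * c i) * b t * b t = 0 := by
    have e1 := h i t
    have e2 := h j t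
    have e3 := h' t j
    have e4 := h' t i
    have e5 := h i j
    -- a i * b t = a t * b i, a j * b t = a t * b j, b t * c j = b j * c t, b t * c i = b i * c t
    calc (a i * c j - a j * c i) * b t * b t
        = (a i * b t) * (b t * c j) - (a j * b t) * (b t * c i) := by ring
      _ = (a t * b i) * (b j * c t) - (a t * b j) * (b i * c t) := by rw [e1, e2, e3, e4]
      _ = 0 := by ring
  rw [mul_assoc] at h1
  have h2 := (mul_eq_zero.1 h1).resolve_right (mul_ne_zero ht ht)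
  exact sub_eq_zero.1 h2

/-- the matrix `g` is invertible and its eigenvalues lie in a torsion-free group -/
def Neat {s : ℕ} (g : Matrix (Fin s) (Fin s) K) : Prop :=
  (∃ g' : Matrix (Fin s) (Fin s) K, g' * g = 1) ∧
    ∃ U : Subgroup (AlgebraicClosure K)ˣ, (∀ u ∈ U, ∀ m : ℕ, 0 < m → u ^ m = 1 → u = 1) ∧
      ∀ (μ : AlgebraicClosure K) (w : Fin s → AlgebraicClosure K), w ≠ 0 →
        (g.map (algebraMap K (AlgebraicClosure K))).mulVec w = μ • w →
        ∃ u ∈ U, (u : AlgebraicClosure K) = μ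

/-- the properties of a variety (`On`) and of the complement of a closed subset (`Off`) which are
used below -/
structure Tst {n : ℕ} (On Off : (Fin (n + 1) → K) → Prop) : Prop where
  ne : ∀ a, Off a → a ≠ 0
  par : ∀ a b, Off a → Par a b → b ≠ 0 → Off b
  sand : ∀ (s : ℕ) (A : Matrix (Fin (n + 1)) (Fin s) K) (g : Matrix (Fin s) (Fin s) K)
    (y : Fin s → K), Neat g → (∀ m : ℕ, On (A.mulVec ((g ^ m).mulVec y))) →
    (Off (A.mulVec y) ∨ Off (A.mulVec (g.mulVec y))) →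
    Par (A.mulVec y) (A.mulVec (g.mulVec y))

/-- the vector `A x y` -/
def val {n s : ℕ} (A : Matrix (Fin (n + 1)) (Fin s) K) (x : Matrix (Fin s) (Fin s) K)
    (y : Fin s → K) : Fin (n + 1) → K := A.mulVec (x.mulVec y)

/-- `z` is represented by an element of `R`, for all families of contexts which are good for
all elements of `P` -/
def RepPt {N : Type} {s : ℕ} (φ : N → Matrix (Fin s) (Fin s) K) (P R : Set N) (z : N) : Prop :=
  ∀ (n : ℕ) (On Off : (Fin (n + 1) → K) → Prop), Tst On Off →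
    ∀ (ι : Type) (A : ι → Matrix (Fin (n + 1)) (Fin s) K) (y : ι → Fin s → K),
      (∀ t, ∀ x ∈ P, On (val (A t) (φ x) (y t))) →
      ((∃ t0 : ι, ∀ t, t = t0) ∨ ∀ t, ∀ x ∈ P, Off (val (A t) (φ x) (y t))) →
      (∀ t, Off (val (A t) (φ z) (y t))) →
      ∃ r ∈ R, ∀ t, Off (val (A t) (φ r) (y t)) ∧
        Par (val (A t) (φ z) (y t)) (val (A t) (φ r) (y t))

section

variable {N : Type} {s : ℕ}

theorem RepPt.mono {φ : N → Matrix (Fin s) (Fin s) K} {P P' R R' : Set N} {z : N}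
    (h : RepPt φ P R z) (hP : P ⊆ P') (hR : R ⊆ R') : RepPt φ P' R' z := by
  intro n On Off hT ι A y h1 h2 h3
  obtain ⟨r, hr, h4⟩ := h n On Off hT ι A y (fun t x hx => h1 t x (hP hx))
    (h2.imp id fun h5 t x hx => h5 t x (hP hx)) h3
  exact ⟨r, hR hr, h4⟩

theorem RepPt.self {φ : N → Matrix (Fin s) (Fin s) K} {P R : Set N} {z : N} (hz : z ∈ R) :
    RepPt φ P R z := by
  intro n On Off hT ι A y h1 h2 h3
  exact ⟨z, hz, fun t => ⟨h3 t, Par.refl _⟩⟩

theorem RepPt.trans {φ : N → Matrix (Fin s) (Fin s) K} {P Q R : Set N} {z : N}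
    (h : RepPt φ P Q z) (hQP : Q ⊆ P) (hQ : ∀ x ∈ Q, RepPt φ Q R x) : RepPt φ P R z := by
  intro n On Off hT ι A y h1 h2 h3
  obtain ⟨q, hq, h4⟩ := h n On Off hT ι A y h1 h2 h3
  obtain ⟨r, hr, h5⟩ := hQ q hq n On Off hT ι A y (fun t x hx => h1 t x (hQP hx))
    (h2.imp id fun h5 t x hx => h5 t x (hQP hx)) (fun t => (h4 t).1)
  exact ⟨r, hr, fun t => ⟨(h5 t).1, (h4 t).2.trans (h5 t).2 (hT.ne _ (h4 t).1)⟩⟩

theorem RepPt.mul [Monoid N] {φ : N →* Matrix (Fin s) (Fin s) K} {P₁ P₂ P R₁ R₂ R : Set N}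
    {z₁ z₂ : N} (h₁ : RepPt φ P₁ R₁ z₁) (h₂ : RepPt φ P₂ R₂ z₂) (hz₂ : z₂ ∈ P₂) (hR₁ : R₁ ⊆ P₁)
    (hP : ∀ x ∈ P₁, ∀ y ∈ P₂, x * y ∈ P) (hR : ∀ x ∈ R₁, ∀ y ∈ R₂, x * y ∈ R) :
    RepPt φ P R (z₁ * z₂) := by
  intro n On Off hT ι A y h1 h2 h3
  have e1 : ∀ t (a b : N), val (A t) (φ (a * b)) (y t) =
      val (A t) (φ a) ((φ b).mulVec (y t)) := by
    intro t a b
    unfold val
    rw [map_mul, ← Matrix.mulVec_mulVec]
  have e2 : ∀ t (a b : N), val (A t) (φ (a * b)) (y t) =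
      val (A t * φ a) (φ b) (y t) := by
    intro t a b
    unfold val
    rw [map_mul]
    simp only [Matrix.mulVec_mulVec, Matrix.mul_assoc]
  obtain ⟨r₁, hr₁, h4⟩ := h₁ n On Off hT ι A (fun t => (φ z₂).mulVec (y t))
    (fun t x hx => by rw [← e1]; exact h1 t _ (hP x hx z₂ hz₂))
    (h2.imp id fun h5 t x hx => by rw [← e1]; exact h5 t _ (hP x hx z₂ hz₂))
    (fun t => by rw [← e1]; exact h3 t)
  obtain ⟨r₂, hr₂, h5⟩ := h₂ n On Off hT ι (fun t => A t * φ r₁) y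
    (fun t x hx => by rw [← e2]; exact h1 t _ (hP r₁ (hR₁ hr₁) x hx))
    (h2.imp id fun h5 t x hx => by rw [← e2]; exact h5 t _ (hP r₁ (hR₁ hr₁) x hx))
    (fun t => by rw [← e2, e1]; exact (h4 t).1)
  refine ⟨r₁ * r₂, hR r₁ hr₁ r₂ hr₂, fun t => ?_⟩
  have h6 := h4 t
  have h7 := h5 t
  rw [← e1, ← e1] at h6
  rw [← e2, ← e2] at h7
  exact ⟨h7.1, h6.2.trans h7.2 (hT.ne _ h6.1)⟩

theorem RepPt.transfer {N' : Type} {s' : ℕ} {φ : N → Matrix (Fin s) (Fin s) K}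
    {φ' : N' → Matrix (Fin s') (Fin s') K} (Ψ : N' → N) (β : Matrix (Fin s) (Fin s') K)
    (α : Matrix (Fin s') (Fin s) K) (hΨ : ∀ z, φ (Ψ z) = β * φ' z * α) {P R : Set N}
    {P' R' : Set N'} {z : N'} (h : RepPt φ' P' R' z) (hP : ∀ x ∈ P', Ψ x ∈ P)
    (hR : ∀ x ∈ R', Ψ x ∈ R) : RepPt φ P R (Ψ z) := by
  intro n On Off hT ι A y h1 h2 h3
  have e : ∀ t x, val (A t) (φ (Ψ x)) (y t) = val (A t * β) (φ' x) (α.mulVec (y t)) := by
    intro t x
    unfold val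
    rw [hΨ]
    simp only [Matrix.mulVec_mulVec, Matrix.mul_assoc]
  obtain ⟨r, hr, h4⟩ := h n On Off hT ι (fun t => A t * β) (fun t => α.mulVec (y t))
    (fun t x hx => by rw [← e]; exact h1 t _ (hP x hx))
    (h2.imp id fun h5 t x hx => by rw [← e]; exact h5 t _ (hP x hx))
    (fun t => by rw [← e]; exact h3 t)
  refine ⟨Ψ r, hR r hr, fun t => ?_⟩
  rw [e, e]
  exact h4 t

/-- the set `P` has a finite set of representatives -/
def FinRep (φ : N → Matrix (Fin s) (Fin s) K) (P : Set N) : Prop :=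
  ∃ R ⊆ P, R.Finite ∧ ∀ z ∈ P, RepPt φ P R z

theorem FinRep.of_finite {φ : N → Matrix (Fin s) (Fin s) K} {P : Set N} (hP : P.Finite) :
    FinRep φ P := ⟨P, subset_rfl, hP, fun _ hz => RepPt.self hz⟩

theorem FinRep.cover {φ : N → Matrix (Fin s) (Fin s) K} {P : Set N} {κ : Type} [Finite κ]
    (Q : κ → Set N) (hQ : ∀ c, FinRep φ (Q c)) (hsub : ∀ c, Q c ⊆ P)
    (hcov : ∀ z ∈ P, ∃ c, z ∈ Q c) : FinRep φ P := by
  choose R hR1 hR2 hR3 using hQ
  refine ⟨⋃ c, R c, ?_, Set.finite_iUnion hR2, ?_⟩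
  · intro x hx
    obtain ⟨c, hc⟩ := Set.mem_iUnion.1 hx
    exact hsub c (hR1 c hc)
  · intro z hz
    obtain ⟨c, hc⟩ := hcov z hz
    exact (hR3 c z hc).mono (hsub c) (Set.subset_iUnion R c)

theorem FinRep.union {φ : N → Matrix (Fin s) (Fin s) K} {P Q : Set N} (hP : FinRep φ P)
    (hQ : FinRep φ Q) : FinRep φ (P ∪ Q) := by
  refine FinRep.cover (κ := Bool) (fun b => bif b then P else Q) ?_ ?_ ?_
  · rintro (_ | _)
    · exact hQ
    · exact hP
  · rintro (_ | _)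
    · exact Set.subset_union_right
    · exact Set.subset_union_left
  · rintro z (hz | hz)
    · exact ⟨true, hz⟩
    · exact ⟨false, hz⟩

theorem FinRep.iUnion {φ : N → Matrix (Fin s) (Fin s) K} {κ : Type} [Finite κ]
    {Q : κ → Set N} (hQ : ∀ c, FinRep φ (Q c)) : FinRep φ (⋃ c, Q c) :=
  FinRep.cover Q hQ (Set.subset_iUnion Q) fun _ hz => Set.mem_iUnion.1 hz

theorem FinRep.mul [Monoid N] {φ : N →* Matrix (Fin s) (Fin s) K} {P Q : Set N}
    (hP : FinRep φ P) (hQ : FinRep φ Q) : FinRep φ (P * Q) := by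
  obtain ⟨R₁, h1, h2, h3⟩ := hP
  obtain ⟨R₂, h4, h5, h6⟩ := hQ
  refine ⟨R₁ * R₂, Set.mul_subset_mul h1 h4, h2.mul h5, ?_⟩
  rintro _ ⟨a, ha, b, hb, rfl⟩
  exact (h3 a ha).mul (h6 b hb) hb h1 (fun x hx y hy => Set.mul_mem_mul hx hy)
    (fun x hx y hy => Set.mul_mem_mul hx hy)

theorem FinRep.image {N' : Type} {s' : ℕ} {φ : N → Matrix (Fin s) (Fin s) K}
    {φ' : N' → Matrix (Fin s') (Fin s') K} (Ψ : N' → N) (β : Matrix (Fin s) (Fin s') K)
    (α : Matrix (Fin s') (Fin s) K) (hΨ : ∀ z, φ (Ψ z) = β * φ' z * α)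
    {P' : Set N'} (h : FinRep φ' P') : FinRep φ (Ψ '' P') := by
  obtain ⟨R, h1, h2, h3⟩ := h
  refine ⟨Ψ '' R, Set.image_mono h1, h2.image Ψ, ?_⟩
  rintro _ ⟨z, hz, rfl⟩
  exact RepPt.transfer Ψ β α hΨ (h3 z hz) (fun x hx => Set.mem_image_of_mem _ hx)
    (fun x hx => Set.mem_image_of_mem _ hx)

theorem FinRep.trans {φ : N → Matrix (Fin s) (Fin s) K} {P Q : Set N} (hQ : FinRep φ Q)
    (hQP : Q ⊆ P) (h : ∀ z ∈ P, RepPt φ P Q z) : FinRep φ P := by
  obtain ⟨R, h1, h2, h3⟩ := hQ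
  exact ⟨R, h1.trans hQP, h2, fun z hz => (h z hz).trans hQP h3⟩

end

end Pool.Agent.T6.H35.RS
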