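import Pool.Agent.T6.H35.RS.Inv

set_option autoImplicit false

/-!
# Paths in finite graphs labelled by arbitrary matrices
-/

namespace Pool.Agent.T6.H35.RS

open Pool.Agent.TH717.GO Pool.Agent.TH138.LG
open scoped Pointwise

/-- a singular matrix factors through a smaller space -/
theorem exists_factor {K : Type} [Field K] {s : ℕ} (M : Matrix (Fin (s + 1)) (Fin (s + 1)) K)
    (hM : ¬ IsUnit M) : ∃ (β : Matrix (Fin (s + 1)) (Fin s) K)
      (α : Matrix (Fin s) (Fin (s + 1)) K), M = β * α := by
  classical
  have hdet : M.det = 0 := by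
    by_contra h
    exact hM ((Matrix.isUnit_iff_isUnit_det M).2 (isUnit_iff_ne_zero.2 h))
  obtain ⟨v, hv, hMv⟩ := Matrix.exists_mulVec_eq_zero_iff.2 hdet
  obtain ⟨t, ht⟩ : ∃ t, v t ≠ 0 := by
    by_contra hcon
    push Not at hcon
    exact hv (funext hcon)
  refine ⟨Matrix.of fun i j => M i (t.succAbove j),
    Matrix.of fun j l => if l = t then - v (t.succAbove j) / v t else
      if l = t.succAbove j then 1 else 0, ?_⟩
  ext i l
  rw [Matrix.mul_apply]
  simp only [Matrix.of_apply]
  by_cases hl : l = t
  · subst hl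
    simp only [if_true]
    have h1 := congrFun hMv i
    rw [Matrix.mulVec, dotProduct, Fin.sum_univ_succAbove _ l] at h1
    have h2 : (∑ j, M i (l.succAbove j) * (-v (l.succAbove j) / v l)) * v l =
        M i l * v l := by
      rw [Finset.sum_mul]
      have h3 : ∀ j, M i (l.succAbove j) * (-v (l.succAbove j) / v l) * v l =
          - (M i (l.succAbove j) * v (l.succAbove j)) := by
        intro j
        field_simp
      simp only [h3]
      rw [Finset.sum_neg_distrib]
      have h4 : M i l * v l + ∑ j, M i (l.succAbove j) * v (l.succAbove j) = 0 := h1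
      linear_combination -h4
    exact (mul_right_cancel₀ ht h2).symm
  · obtain ⟨j, rfl⟩ := Fin.exists_succAbove_eq hl
    simp only [if_neg hl]
    rw [Finset.sum_eq_single j]
    · simp
    · intro j' _ hj'
      rw [if_neg (fun h => hj' (Fin.succAbove_right_injective h).symm), mul_zero]
    · intro h
      exact absurd (Finset.mem_univ j) h

section

variable {N : Type} [Monoid N] {V B : Type}

/-- products which begin and end with singular edges -/
inductive SP (src tgt : B → V) (lab : B → N) (U : V → V → Set N) (b : B) : B → N → Prop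
  | nil : SP src tgt lab U b b (lab b)
  | cons {b' b'' : B} {z u : N} : SP src tgt lab U b b' z → u ∈ U (tgt b') (src b'') →
      SP src tgt lab U b b'' (z * u * lab b'')

theorem SP.mono {src tgt : B → V} {lab : B → N} {U U' : V → V → Set N} (hU : ∀ i j, U i j ⊆ U' i j)
    {b b' : B} {z : N} (h : SP src tgt lab U b b' z) : SP src tgt lab U' b b' z := by
  induction h with
  | nil => exact .nil
  | cons _ hu ih => exact ih.cons (hU _ _ hu)

theorem SP.rep {K : Type} [Field K] {s : ℕ} {φ : N →* Matrix (Fin s) (Fin s) K}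
    {src tgt : B → V} {lab : B → N} {U R : V → V → Set N} (hRU : ∀ i j, R i j ⊆ U i j)
    (hR : ∀ i j, ∀ u ∈ U i j, RepPt φ (U i j) (R i j) u) {b b' : B} {z : N}
    (h : SP src tgt lab U b b' z) :
    RepPt φ {z | SP src tgt lab U b b' z} {z | SP src tgt lab R b b' z} z := by
  induction h with
  | nil => exact RepPt.self SP.nil
  | @cons b' b'' z u hz hu ih =>
    have h1 := RepPt.mul ih (hR _ _ u hu) hu (fun x hx => SP.mono hRU hx)
      (P := {z | SP src tgt lab U b b' z} * U (tgt b') (src b''))
      (R := {z | SP src tgt lab R b b' z} * R (tgt b') (src b''))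
      (fun x hx y hy => Set.mul_mem_mul hx hy) (fun x hx y hy => Set.mul_mem_mul hx hy)
    refine RepPt.mul h1 (RepPt.self (P := {lab b''}) (R := {lab b''}) rfl) rfl
      (Set.mul_subset_mul (fun x hx => SP.mono hRU hx) (hRU _ _)) ?_ ?_
    · rintro _ ⟨x, hx, y, hy, rfl⟩ e he
      rw [Set.mem_singleton_iff] at he
      subst he
      exact SP.cons hx hy
    · rintro _ ⟨x, hx, y, hy, rfl⟩ e he
      rw [Set.mem_singleton_iff] at he
      subst he
      exact SP.cons hx hy

/-- decomposition of a path at the singular edges -/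
theorem Pth.split {E EI : V → V → Set N} {src tgt : B → V} {lab : B → N}
    (hEI : ∀ i j, ∀ e ∈ E i j, e ∈ EI i j ∨ ∃ b, src b = i ∧ tgt b = j ∧ lab b = e)
    {i j : V} {z : N} (h : Pth E i j z) : Pth EI i j z ∨
      ∃ b b' u w v, Pth EI i (src b) u ∧ SP src tgt lab (fun i j => {x | Pth EI i j x}) b b' w ∧
        Pth EI (tgt b') j v ∧ z = u * (w * v) := by
  induction h with
  | nil => exact Or.inl .nil
  | @cons j k z e hz he ih =>
    rcases hEI _ _ e he with he | ⟨c, rfl, rfl, rfl⟩
    · rcases ih with ih | ⟨b, b', u, w, v, h1, h2, h3, rfl⟩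
      · exact Or.inl (ih.cons he)
      · refine Or.inr ⟨b, b', u, w, v * e, h1, h2, h3.cons he, ?_⟩
        simp only [mul_assoc]
    · rcases ih with ih | ⟨b, b', u, w, v, h1, h2, h3, rfl⟩
      · refine Or.inr ⟨c, c, z, lab c, 1, ih, .nil, .nil, ?_⟩
        rw [mul_one]
      · refine Or.inr ⟨b, c, u, w * v * lab c, 1, h1, SP.cons h2 h3, .nil, ?_⟩
        simp only [mul_assoc, mul_one]

theorem SP.path {E EI : V → V → Set N} {src tgt : B → V} {lab : B → N}
    (hE : ∀ i j, EI i j ⊆ E i j) (hlab : ∀ b, lab b ∈ E (src b) (tgt b)) {b b' : B} {z : N}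
    (h : SP src tgt lab (fun i j => {x | Pth EI i j x}) b b' z) :
    Pth E (src b) (tgt b') z := by
  induction h with
  | nil => exact Pth.single (hlab b)
  | @cons b' b'' z u _ hu ih =>
    exact (ih.trans (Pth.mono hE hu)).trans (Pth.single (hlab b''))

end

/-- **Main theorem on paths**: the set of labels of the paths between two vertices of a finite graph
labelled by elements of a monoid with matrices over a field of characteristic 0 has a finite set of
representatives. -/
theorem FinRep.main {K : Type} [Field K] [CharZero K] {S : Type} [Monoid S] (s : ℕ) :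
    ∀ (V : Type) [Finite V] (E : V → V → Set (S × Matrix (Fin s) (Fin s) K)),
      (∀ i j, (E i j).Finite) → ∀ i j,
        FinRep (MonoidHom.snd S (Matrix (Fin s) (Fin s) K)) {z | Pth E i j z} := by
  classical
  induction s with
  | zero =>
    intro V _ E hE i j
    refine FinRep.inv E hE ?_ i j
    intro i j e _
    rw [Subsingleton.elim e.2 1]
    exact isUnit_one
  | succ s ih =>
    intro V _ E hE i j
    -- invertible edges
    let EI : V → V → Set (S × Matrix (Fin (s + 1)) (Fin (s + 1)) K) :=
      fun i j => {e | e ∈ E i j ∧ IsUnit e.2}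
    have hEI : ∀ i j, EI i j ⊆ E i j := fun i j e he => he.1
    have hI : ∀ i j, FinRep (MonoidHom.snd S (Matrix (Fin (s + 1)) (Fin (s + 1)) K))
        {z | Pth EI i j z} :=
      fun i j => FinRep.inv EI (fun i j => (hE i j).subset (hEI i j)) (fun i j e he => he.2) i j
    choose R hRU hRfin hRrep using hI
    -- singular edges
    let B : Type := Σ i : V, Σ j : V, ↥{e | e ∈ E i j ∧ ¬ IsUnit e.2}
    have hB : Finite B := by
      have : ∀ i j, Finite ↥{e | e ∈ E i j ∧ ¬ IsUnit e.2} :=
        fun i j => ((hE i j).subset (fun e he => he.1)).to_subtype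
      infer_instance
    let src : B → V := fun b => b.1
    let tgt : B → V := fun b => b.2.1
    let lab : B → S × Matrix (Fin (s + 1)) (Fin (s + 1)) K := fun b => b.2.2.1
    have hlab : ∀ b, lab b ∈ E (src b) (tgt b) := fun b => b.2.2.2.1
    have hfac : ∀ b, ∃ (β : Matrix (Fin (s + 1)) (Fin s) K) (α : Matrix (Fin s) (Fin (s + 1)) K),
        (lab b).2 = β * α := fun b => exists_factor _ b.2.2.2.2
    choose β α hβα using hfac
    -- the smaller graph
    let E' : B → B → Set (S × Matrix (Fin s) (Fin s) K) := fun b b' =>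
      (fun u => ((lab b).1 * u.1, α b * u.2 * β b')) '' R (tgt b) (src b')
    have hE' : ∀ b b', (E' b b').Finite := fun b b' => (hRfin _ _).image _
    have hsmall := ih B E' hE'
    let Ψ : B → B → S × Matrix (Fin s) (Fin s) K → S × Matrix (Fin (s + 1)) (Fin (s + 1)) K :=
      fun b b' z => (z.1 * (lab b').1, β b * z.2 * α b')
    have hSP : ∀ b b', {z | SP src tgt lab R b b' z} = Ψ b b' '' {z | Pth E' b b' z} := by
      intro b b'
      apply Set.Subset.antisymm
      · intro z hz
        have hz' : SP src tgt lab R b b' z := hz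
        clear hz
        induction hz' with
        | nil =>
          refine ⟨1, .nil, ?_⟩
          refine Prod.ext ?_ ?_
          · show 1 * (lab b).1 = _
            rw [one_mul]
          · show β b * 1 * α b = _
            rw [Matrix.mul_one, hβα]
        | @cons b' b'' z u _ hu ihz =>
          obtain ⟨z', hz', rfl⟩ := ihz
          refine ⟨z' * ((lab b').1 * u.1, α b' * u.2 * β b''), Pth.cons hz' ⟨u, hu, rfl⟩, ?_⟩
          refine Prod.ext ?_ ?_
          · show z'.1 * ((lab b').1 * u.1) * (lab b'').1 = z'.1 * (lab b').1 * u.1 * (lab b'').1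
            simp only [mul_assoc]
          · show β b * (z'.2 * (α b' * u.2 * β b'')) * α b'' =
              β b * z'.2 * α b' * u.2 * (lab b'').2
            rw [hβα b'']
            simp only [Matrix.mul_assoc]
      · rintro _ ⟨z, hz, rfl⟩
        have hz' : Pth E' b b' z := hz
        clear hz
        show SP src tgt lab R b b' _
        induction hz' with
        | nil =>
          have h1 : Ψ b b 1 = lab b := by
            refine Prod.ext ?_ ?_
            · show 1 * (lab b).1 = _
              rw [one_mul]
            · show β b * 1 * α b = _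
              rw [Matrix.mul_one, hβα]
          rw [h1]
          exact SP.nil
        | @cons b' b'' z e _ he ihz =>
          obtain ⟨u, hu, rfl⟩ := he
          have h1 : Ψ b b'' (z * ((lab b').1 * u.1, α b' * u.2 * β b'')) =
              Ψ b b' z * u * lab b'' := by
            refine Prod.ext ?_ ?_
            · show z.1 * ((lab b').1 * u.1) * (lab b'').1 = z.1 * (lab b').1 * u.1 * (lab b'').1
              simp only [mul_assoc]
            · show β b * (z.2 * (α b' * u.2 * β b'')) * α b'' =
                β b * z.2 * α b' * u.2 * (lab b'').2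
              rw [hβα b'']
              simp only [Matrix.mul_assoc]
          rw [h1]
          exact SP.cons ihz hu
    have hSPR : ∀ b b', FinRep (MonoidHom.snd S (Matrix (Fin (s + 1)) (Fin (s + 1)) K))
        {z | SP src tgt lab R b b' z} := by
      intro b b'
      rw [hSP]
      exact FinRep.image (Ψ b b') (β b) (α b') (fun z => rfl) (hsmall b b')
    have hSPU : ∀ b b', FinRep (MonoidHom.snd S (Matrix (Fin (s + 1)) (Fin (s + 1)) K))
        {z | SP src tgt lab (fun i j => {x | Pth EI i j x}) b b' z} := by
      intro b b'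
      refine FinRep.trans (hSPR b b') (fun z hz => SP.mono hRU hz) ?_
      intro z hz
      exact SP.rep hRU hRrep hz
    -- all paths
    refine FinRep.cover (κ := Option (B × B)) (fun c => match c with
      | none => {z | Pth EI i j z}
      | some c => {z | Pth EI i (src c.1) z} *
          ({z | SP src tgt lab (fun i j => {x | Pth EI i j x}) c.1 c.2 z} *
            {z | Pth EI (tgt c.2) j z})) ?_ ?_ ?_
    · rintro (_ | ⟨b, b'⟩)
      · exact ⟨_, hRU i j, hRfin i j, hRrep i j⟩
      · exact FinRep.mul ⟨_, hRU _ _, hRfin _ _, hRrep _ _⟩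
          (FinRep.mul (hSPU b b') ⟨_, hRU _ _, hRfin _ _, hRrep _ _⟩)
    · rintro (_ | ⟨b, b'⟩)
      · exact fun z hz => Pth.mono hEI hz
      · rintro _ ⟨u, hu, _, ⟨w, hw, v, hv, rfl⟩, rfl⟩
        exact (Pth.mono hEI hu).trans ((SP.path hEI hlab hw).trans (Pth.mono hEI hv))
    · intro z hz
      have hsplit := Pth.split (E := E) (EI := EI) (src := src) (tgt := tgt) (lab := lab) (by
        intro i j e he
        by_cases hu : IsUnit e.2
        · exact Or.inl ⟨he, hu⟩
        · exact Or.inr ⟨⟨i, j, ⟨e, he, hu⟩⟩, rfl, rfl, rfl⟩) hz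
      rcases hsplit with h | ⟨b, b', u, w, v, h1, h2, h3, rfl⟩
      · exact ⟨none, h⟩
      · exact ⟨some (b, b'), u, h1, _, ⟨w, h2, v, h3, rfl⟩, rfl⟩

end Pool.Agent.T6.H35.RS
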