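import Pool.Agent.T6.H35.RS.Auto

set_option autoImplicit false

/-!
# Ultraproducts of fields, of closed subsets of projective space and of representations
-/

namespace Pool.Agent.T6.H35.RS

open Pool.Agent.TH717.GO Pool.Agent.TH138.LG

section Ultra

variable {ι : Type} (U : Ultrafilter ι) (κ : ι → Type) [∀ i, Field (κ i)]

/-- families which vanish almost everywhere -/
def nul : Ideal (∀ i, κ i) where
  carrier := {f | ∀ᶠ i in (U : Filter ι), f i = 0}
  zero_mem' := Filter.Eventually.of_forall fun i => rfl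
  add_mem' := by
    intro a b ha hb
    filter_upwards [ha, hb] with i h1 h2
    simp [h1, h2]
  smul_mem' := by
    intro c a ha
    filter_upwards [ha] with i h
    simp [h]

theorem mem_nul {f : ∀ i, κ i} : f ∈ nul U κ ↔ ∀ᶠ i in (U : Filter ι), f i = 0 := Iff.rfl

instance nul_isMaximal : (nul U κ).IsMaximal := by
  classical
  rw [Ideal.isMaximal_iff]
  constructor
  · intro h
    rw [mem_nul] at h
    obtain ⟨i, hi⟩ := h.exists
    exact one_ne_zero hi
  · intro J x hJ hx hxJ
    rw [mem_nul] at hx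
    have hx' : ∀ᶠ i in (U : Filter ι), x i ≠ 0 := Ultrafilter.eventually_not.2 hx
    have h1 : (1 - (fun i => (x i)⁻¹) * x : ∀ i, κ i) ∈ nul U κ := by
      rw [mem_nul]
      filter_upwards [hx'] with i hi
      simp [inv_mul_cancel₀ hi]
    have h2 : (fun i => (x i)⁻¹ : ∀ i, κ i) * x ∈ J := J.mul_mem_left _ hxJ
    have h3 := J.add_mem (hJ h1) h2
    simpa using h3

/-- the ultraproduct of the fields `κ i` -/
def KU : Type := (∀ i, κ i) ⧸ nul U κ

noncomputable instance : Field (KU U κ) := Ideal.Quotient.field (nul U κ)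

/-- the class of a family -/
noncomputable def st : (∀ i, κ i) →+* KU U κ := Ideal.Quotient.mk (nul U κ)

theorem st_surjective : Function.Surjective (st U κ) := Ideal.Quotient.mk_surjective

theorem st_eq_zero_iff {f : ∀ i, κ i} : st U κ f = 0 ↔ ∀ᶠ i in (U : Filter ι), f i = 0 :=
  Ideal.Quotient.eq_zero_iff_mem

theorem st_ne_zero_iff {f : ∀ i, κ i} : st U κ f ≠ 0 ↔ ∀ᶠ i in (U : Filter ι), f i ≠ 0 := by
  rw [Ne, st_eq_zero_iff]
  exact Ultrafilter.eventually_not.symm

theorem st_eq_iff {f g : ∀ i, κ i} : st U κ f = st U κ g ↔ ∀ᶠ i in (U : Filter ι), f i = g i := by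
  rw [← sub_eq_zero, ← map_sub, st_eq_zero_iff]
  refine Filter.eventually_congr (Filter.Eventually.of_forall fun i => ?_)
  rw [Pi.sub_apply, sub_eq_zero]

/-- evaluation at an index -/
abbrev ev (i : ι) : (∀ i, κ i) →+* κ i := Pi.evalRingHom κ i

instance [∀ i, IsAlgClosed (κ i)] : IsAlgClosed (KU U κ) := by
  refine IsAlgClosed.of_exists_root _ ?_
  intro p hp hirr
  have hsurj := st_surjective U κ
  obtain ⟨q, hq, hdeg, hmon⟩ := Polynomial.lifts_and_natDegree_eq_and_monic
    (Polynomial.map_surjective (st U κ) hsurj p : p ∈ Polynomial.lifts (st U κ)) hp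
  have hn : p.natDegree ≠ 0 := by
    intro h
    have := Polynomial.natDegree_eq_zero.1 h
    obtain ⟨c, hc⟩ := this
    have h1 := hp
    rw [← hc] at h1
    have : c = 1 := by simpa [Polynomial.Monic] using h1
    rw [this] at hc
    rw [← hc] at hirr
    exact hirr.not_isUnit (by simp)
  have hroot : ∀ i, ∃ x : κ i, (q.map (ev κ i)).eval x = 0 := by
    intro i
    refine IsAlgClosed.exists_root _ ?_
    rw [Polynomial.degree_eq_natDegree (hmon.map (ev κ i)).ne_zero, hmon.natDegree_map, hdeg]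
    exact_mod_cast hn
  choose x hx using hroot
  refine ⟨st U κ x, ?_⟩
  have h0 : q.eval x = 0 := by
    funext i
    have h1 : ev κ i (q.eval x) = (q.map (ev κ i)).eval (ev κ i x) :=
      (Polynomial.eval_map_apply ..).symm
    have h2 := hx i
    show ev κ i (q.eval x) = 0
    rw [h1]; exact h2
  rw [← hq, Polynomial.eval_map_apply, h0, map_zero]

instance [∀ i, CharZero (κ i)] : CharZero (KU U κ) := by
  refine charZero_of_inj_zero ?_
  intro n hn
  by_contra h0
  have h2 : st U κ (n : ∀ i, κ i) ≠ 0 := by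
    rw [st_ne_zero_iff]
    refine Filter.Eventually.of_forall fun i => ?_
    simpa using h0
  rw [map_natCast] at h2
  exact h2 hn

variable {n : ℕ}

theorem vec_eq (x : Fin (n + 1) → ∀ i, κ i) : (fun j => st U κ (x j)) = 0 ↔
    ∀ᶠ i in (U : Filter ι), (fun j => x j i) = 0 := by
  have h1 : ((fun j => st U κ (x j)) = 0) ↔ ∀ j, st U κ (x j) = 0 := funext_iff
  have h2 : (∀ᶠ i in (U : Filter ι), (fun j => x j i) = 0) ↔
      ∀ j, ∀ᶠ i in (U : Filter ι), x j i = 0 := by
    rw [← Filter.eventually_all]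
    exact Filter.eventually_congr (Filter.Eventually.of_forall fun i => funext_iff)
  rw [h1, h2]
  exact forall_congr' fun j => st_eq_zero_iff U κ

theorem vec_ne (x : Fin (n + 1) → ∀ i, κ i) : (fun j => st U κ (x j)) ≠ 0 ↔
    ∀ᶠ i in (U : Filter ι), (fun j => x j i) ≠ 0 := by
  rw [Ne, vec_eq]
  exact Ultrafilter.eventually_not.symm

theorem vec_par (x y : Fin (n + 1) → ∀ i, κ i) :
    Par (fun j => st U κ (x j)) (fun j => st U κ (y j)) ↔
      ∀ᶠ i in (U : Filter ι), Par (fun j => x j i) (fun j => y j i) := by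
  have h2 : (∀ᶠ i in (U : Filter ι), Par (fun j => x j i) (fun j => y j i)) ↔
      ∀ j l, ∀ᶠ i in (U : Filter ι), x j i * y l i = x l i * y j i := by
    unfold Par
    rw [Filter.eventually_all]
    exact forall_congr' fun j => Filter.eventually_all
  rw [h2]
  refine forall_congr' fun j => forall_congr' fun l => ?_
  rw [← map_mul, ← map_mul, st_eq_iff]
  rfl

/-- the limit of the closed sets given by the `FF i` -/
def FFL (d : ℕ) (FF : ∀ i, Set (MvPolynomial (Fin (n + 1)) (κ i))) :
    Set (MvPolynomial (Fin (n + 1)) (KU U κ)) :=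
  {F | ∃ G : MvPolynomial (Fin (n + 1)) (∀ i, κ i), F = MvPolynomial.map (st U κ) G ∧
    (∃ e ≤ d, G.IsHomogeneous e) ∧ ∀ᶠ i in (U : Filter ι), MvPolynomial.map (ev κ i) G ∈ FF i}

variable {U κ} {d : ℕ} {FF : ∀ i, Set (MvPolynomial (Fin (n + 1)) (κ i))}

theorem FFL_hom : ∀ F ∈ FFL U κ d FF, ∃ e, F.IsHomogeneous e := by
  rintro _ ⟨G, rfl, ⟨e, -, he⟩, -⟩
  exact ⟨e, he.map _⟩

theorem FFL_on (x : Fin (n + 1) → ∀ i, κ i)
    (h : ∀ᶠ i in (U : Filter ι), ∀ F ∈ FF i, MvPolynomial.aeval (fun j => x j i) F = 0) :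
    ∀ F ∈ FFL U κ d FF, MvPolynomial.aeval (fun j => st U κ (x j)) F = 0 := by
  rintro _ ⟨G, rfl, -, hG⟩
  rw [MvPolynomial.aeval_def, Algebra.algebraMap_self, MvPolynomial.eval₂_map, RingHom.id_comp]
  have h1 : MvPolynomial.eval₂ (st U κ) (fun j => st U κ (x j)) G =
      st U κ (MvPolynomial.eval x G) := by
    have := MvPolynomial.eval₂_comp_left (st U κ) (RingHom.id _) x G
    rw [RingHom.comp_id] at this
    exact this.symm
  rw [h1, st_eq_zero_iff]
  filter_upwards [h, hG] with i h2 h3
  have h4 := h2 _ h3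
  rw [MvPolynomial.aeval_def, Algebra.algebraMap_self, MvPolynomial.eval₂_map,
    RingHom.id_comp] at h4
  have h5 : MvPolynomial.eval₂ (ev κ i) (fun j => x j i) G =
      ev κ i (MvPolynomial.eval x G) := by
    have := MvPolynomial.eval₂_comp_left (ev κ i) (RingHom.id _) x G
    rw [RingHom.comp_id] at this
    exact this.symm
  rw [h5] at h4
  exact h4

/-- forms over the fields `κ i` of one degree come from a form over their product -/
theorem exists_lift (e : ℕ) (F : ∀ i, MvPolynomial (Fin (n + 1)) (κ i))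
    (hF : ∀ i, (F i).IsHomogeneous e) :
    ∃ G : MvPolynomial (Fin (n + 1)) (∀ i, κ i), G.IsHomogeneous e ∧
      ∀ i, MvPolynomial.map (ev κ i) G = F i := by
  classical
  let T : Finset (Fin (n + 1) →₀ ℕ) := (Finset.univ : Finset (Fin (n + 1))).finsuppAntidiag e
  have hT : ∀ m : Fin (n + 1) →₀ ℕ, m ∈ T ↔ m.degree = e := by
    intro m
    rw [Finset.mem_finsuppAntidiag]
    have h1 : m.degree = ∑ i, m i := Finsupp.degree_eq_sum m
    rw [h1]
    simp
  let G : MvPolynomial (Fin (n + 1)) (∀ i, κ i) :=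
    ∑ m ∈ T, MvPolynomial.monomial m (fun i => (F i).coeff m)
  refine ⟨G, ?_, ?_⟩
  · refine MvPolynomial.IsHomogeneous.sum _ _ _ fun m hm => ?_
    exact MvPolynomial.isHomogeneous_monomial _ ((hT m).1 hm)
  · intro i
    show MvPolynomial.map (ev κ i) (∑ m ∈ T, MvPolynomial.monomial m (fun i => (F i).coeff m)) = _
    rw [map_sum]
    ext m
    rw [MvPolynomial.coeff_sum]
    simp only [MvPolynomial.map_monomial, MvPolynomial.coeff_monomial]
    rw [Finset.sum_ite_eq' T m]
    split_ifs with hm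
    · rfl
    · by_contra hne
      apply hm
      rw [hT]
      by_contra hdeg
      exact hne ((hF i).coeff_eq_zero hdeg).symm

theorem FFL_noRat (hd : ∀ i, ∀ F ∈ FF i, ∃ e ≤ d, F.IsHomogeneous e)
    (h : ∀ i, NoRat (FF i)) : NoRat (FFL U κ d FF) := by
  classical
  intro q hq
  have hlift : ∀ j, ∃ p : Polynomial (∀ i, κ i), p.map (st U κ) = q j :=
    fun j => Polynomial.map_surjective (st U κ) (st_surjective U κ) (q j)
  choose q' hq' using hlift
  -- the curves `q'` lie on the closed sets, almost everywhere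
  have key : ∀ᶠ i in (U : Filter ι), ∀ F ∈ FF i,
      MvPolynomial.aeval (fun j => (q' j).map (ev κ i)) F = 0 := by
    by_contra hcon
    have hcon' : ∀ᶠ i in (U : Filter ι), ¬ ∀ F ∈ FF i,
      MvPolynomial.aeval (fun j => (q' j).map (ev κ i)) F = 0 := Ultrafilter.eventually_not.2 hcon
    have hch : ∀ i, ∃ (F : MvPolynomial (Fin (n + 1)) (κ i)) (e : Fin (d + 1)),
        F.IsHomogeneous (e : ℕ) ∧ ((¬ ∀ F ∈ FF i,
          MvPolynomial.aeval (fun j => (q' j).map (ev κ i)) F = 0) → F ∈ FF i ∧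
          MvPolynomial.aeval (fun j => (q' j).map (ev κ i)) F ≠ 0) := by
      intro i
      by_cases hi : ∀ F ∈ FF i, MvPolynomial.aeval (fun j => (q' j).map (ev κ i)) F = 0
      · exact ⟨0, 0, MvPolynomial.isHomogeneous_zero _ _ _, fun h => absurd hi h⟩
      · push Not at hi
        obtain ⟨F, hF, hF0⟩ := hi
        obtain ⟨e, he, hFe⟩ := hd i F hF
        exact ⟨F, ⟨e, by omega⟩, hFe, fun _ => ⟨hF, hF0⟩⟩
    choose F e hFe hF using hch
    obtain ⟨a, ha⟩ := (U.map e).eq_pure_of_finite
    have ha' : ∀ᶠ i in (U : Filter ι), e i = a := by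
      have h1 : {b | b = a} ∈ U.map e := by
        rw [ha]
        exact Ultrafilter.mem_pure.2 rfl
      exact h1
    obtain ⟨G, hG1, hG2⟩ := exists_lift (a : ℕ) (fun i => if e i = a then F i else 0) (by
      intro i
      split_ifs with hi
      · rw [← hi]
        exact hFe i
      · exact MvPolynomial.isHomogeneous_zero _ _ _)
    have hG3 : MvPolynomial.map (st U κ) G ∈ FFL U κ d FF := by
      refine ⟨G, rfl, ⟨a, by omega, hG1⟩, ?_⟩
      filter_upwards [hcon', ha'] with i h1 h2
      rw [hG2, if_pos h2]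
      exact (hF i h1).1
    have h3 := hq _ hG3
    -- the value of `G` at `q'`
    let H : Polynomial (∀ i, κ i) := MvPolynomial.aeval q' G
    have h4 : H.map (st U κ) = 0 := by
      rw [← h3]
      have h5 := MvPolynomial.eval₂_comp_left (Polynomial.mapRingHom (st U κ))
        (algebraMap (∀ i, κ i) (Polynomial (∀ i, κ i))) q' G
      show (Polynomial.mapRingHom (st U κ)) (MvPolynomial.eval₂ _ q' G) = _
      rw [h5, MvPolynomial.aeval_def, MvPolynomial.eval₂_map]
      congr 1
      · refine RingHom.ext fun x => ?_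
        simp
      · funext j
        exact hq' j
    have h5 : ∀ᶠ i in (U : Filter ι), H.map (ev κ i) = 0 := by
      have h6 : ∀ᶠ i in (U : Filter ι), ∀ m ∈ Finset.range (H.natDegree + 1), H.coeff m i = 0 := by
        rw [Filter.eventually_all_finset]
        intro m _
        rw [← st_eq_zero_iff U κ, ← Polynomial.coeff_map, h4, Polynomial.coeff_zero]
      filter_upwards [h6] with i hi
      ext m
      rw [Polynomial.coeff_map, Polynomial.coeff_zero]
      by_cases hm : m < H.natDegree + 1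
      · exact hi m (Finset.mem_range.2 hm)
      · rw [Polynomial.coeff_eq_zero_of_natDegree_lt (by omega), map_zero]
    obtain ⟨i, hi1, hi2, hi3⟩ := (h5.and (hcon'.and ha')).exists
    apply (hF i hi2).2
    rw [← hi1]
    have h6 := MvPolynomial.eval₂_comp_left (Polynomial.mapRingHom (ev κ i))
        (algebraMap (∀ i, κ i) (Polynomial (∀ i, κ i))) q' G
    show _ = (Polynomial.mapRingHom (ev κ i)) (MvPolynomial.eval₂ _ q' G)
    rw [h6]
    have h7 : F i = MvPolynomial.map (ev κ i) G := by rw [hG2, if_pos hi3]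
    rw [h7, MvPolynomial.aeval_def, MvPolynomial.eval₂_map]
    congr 1
    refine RingHom.ext fun x => ?_
    simp
  intro i j a b
  obtain ⟨a', rfl⟩ := st_surjective U κ a
  obtain ⟨b', rfl⟩ := st_surjective U κ b
  rw [← hq' i, ← hq' j]
  simp only [Polynomial.eval_map_apply]
  rw [← map_mul, ← map_mul, st_eq_iff]
  filter_upwards [key] with l hl
  have h1 := h l _ hl i j (a' l) (b' l)
  have h2 : ∀ (m : Fin (n + 1)) (c : ∀ i, κ i), ((q' m).map (ev κ l)).eval (c l) =
      (Polynomial.eval c (q' m)) l := by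
    intro m c
    exact Polynomial.eval_map_apply (ev κ l) c
  rw [h2, h2, h2, h2] at h1
  exact h1

end Ultra

end Pool.Agent.T6.H35.RS
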