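import Pool.Agent.T6.H35.RS.Ultra

set_option autoImplicit false

/-!
# Uniform finite sets of representatives
-/

namespace Pool.Agent.T6.H35.RS

open Pool.Agent.TH717.GO Pool.Agent.TH138.LG

section dom

variable {K : Type} [Field K] {N : Type} {s n : ℕ}

/-- in each good context, `z` is represented by an element of `R` -/
def DomA (On : (Fin (n + 1) → K) → Prop) (φ : N → Matrix (Fin s) (Fin s) K) (P R : Set N)
    (z : N) : Prop :=
  ∀ (A : Matrix (Fin (n + 1)) (Fin s) K) (y : Fin s → K), (∀ x ∈ P, On (val A (φ x) y)) →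
    val A (φ z) y ≠ 0 → ∃ r ∈ R, val A (φ r) y ≠ 0 ∧ Par (val A (φ z) y) (val A (φ r) y)

/-- `z` is represented by one element of `R` in all good contexts with nonzero values -/
def DomB (On : (Fin (n + 1) → K) → Prop) (φ : N → Matrix (Fin s) (Fin s) K) (P R : Set N)
    (z : N) : Prop :=
  ∃ r ∈ R, ∀ (A : Matrix (Fin (n + 1)) (Fin s) K) (y : Fin s → K),
    (∀ x ∈ P, On (val A (φ x) y)) → (∀ x ∈ P, val A (φ x) y ≠ 0) →
    Par (val A (φ z) y) (val A (φ r) y)

theorem RepPt.domA {φ : N → Matrix (Fin s) (Fin s) K} {P R : Set N} {z : N}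
    (h : RepPt φ P R z) {On : (Fin (n + 1) → K) → Prop} (hT : Tst On (fun a => a ≠ 0)) :
    DomA On φ P R z := by
  intro A y h1 h2
  obtain ⟨r, hr, h3⟩ := h n On (fun a => a ≠ 0) hT Unit (fun _ => A) (fun _ => y)
    (fun _ x hx => h1 x hx) (Or.inl ⟨(), fun _ => rfl⟩) (fun _ => h2)
  exact ⟨r, hr, h3 ()⟩

theorem RepPt.domB {φ : N → Matrix (Fin s) (Fin s) K} {P R : Set N} {z : N}
    (h : RepPt φ P R z) (hz : z ∈ P) {On : (Fin (n + 1) → K) → Prop}
    (hT : Tst On (fun a => a ≠ 0)) : DomB On φ P R z := by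
  let ι : Type := {c : Matrix (Fin (n + 1)) (Fin s) K × (Fin s → K) //
    (∀ x ∈ P, On (val c.1 (φ x) c.2)) ∧ ∀ x ∈ P, val c.1 (φ x) c.2 ≠ 0}
  obtain ⟨r, hr, h3⟩ := h n On (fun a => a ≠ 0) hT ι (fun c => c.1.1) (fun c => c.1.2)
    (fun c x hx => c.2.1 x hx) (Or.inr fun c x hx => c.2.2 x hx) (fun c => c.2.2 z hz)
  exact ⟨r, hr, fun A y h1 h2 => (h3 ⟨(A, y), h1, h2⟩).2⟩

theorem DomA.mono {On : (Fin (n + 1) → K) → Prop} {φ : N → Matrix (Fin s) (Fin s) K}
    {P P' R R' : Set N} {z : N} (h : DomA On φ P R z) (hP : P ⊆ P') (hR : R ⊆ R') :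
    DomA On φ P' R' z := by
  intro A y h1 h2
  obtain ⟨r, hr, h3⟩ := h A y (fun x hx => h1 x (hP hx)) h2
  exact ⟨r, hR hr, h3⟩

theorem DomB.mono {On : (Fin (n + 1) → K) → Prop} {φ : N → Matrix (Fin s) (Fin s) K}
    {P P' R R' : Set N} {z : N} (h : DomB On φ P R z) (hP : P ⊆ P') (hR : R ⊆ R') :
    DomB On φ P' R' z := by
  obtain ⟨r, hr, h3⟩ := h
  exact ⟨r, hR hr, fun A y h1 h2 => h3 A y (fun x hx => h1 x (hP hx)) (fun x hx => h2 x (hP hx))⟩

theorem val_mul [Monoid N] (φ : N →* Matrix (Fin s) (Fin s) K)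
    (A : Matrix (Fin (n + 1)) (Fin s) K) (y : Fin s → K) (a b : N) :
    val A (φ (a * b)) y = val A (φ a) ((φ b).mulVec y) := by
  unfold val
  rw [map_mul, ← Matrix.mulVec_mulVec]

variable [Monoid N]

theorem domA_paths {V : Type} (E R : V → V → Set N) (φ : N →* Matrix (Fin s) (Fin s) K)
    (On : (Fin (n + 1) → K) → Prop) (h0 : ∀ i, DomA On φ {z | Pth E i i z} (R i i) 1)
    (h1 : ∀ i j k, ∀ r ∈ R i j, ∀ e ∈ E j k, DomA On φ {z | Pth E i k z} (R i k) (r * e))
    {i j : V} {z : N} (hz : Pth E i j z) : DomA On φ {z | Pth E i j z} (R i j) z := by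
  induction hz with
  | nil => exact h0 i
  | @cons j k z e hz he ih =>
    intro A y h2 h3
    rw [val_mul] at h3
    obtain ⟨r, hr, h4, h5⟩ := ih A ((φ e).mulVec y) (fun x hx => by
      rw [← val_mul]
      exact h2 _ (Pth.cons hx he)) h3
    rw [← val_mul] at h4
    rw [← val_mul, ← val_mul] at h5
    obtain ⟨r', hr', h6, h7⟩ := h1 i j k r hr e he A y h2 h4
    exact ⟨r', hr', h6, h5.trans h7 h4⟩

theorem domB_paths {V : Type} (E R : V → V → Set N) (φ : N →* Matrix (Fin s) (Fin s) K)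
    (On : (Fin (n + 1) → K) → Prop) (hR : ∀ i j, R i j ⊆ {z | Pth E i j z})
    (h0 : ∀ i, DomB On φ {z | Pth E i i z} (R i i) 1)
    (h1 : ∀ i j k, ∀ r ∈ R i j, ∀ e ∈ E j k, DomB On φ {z | Pth E i k z} (R i k) (r * e))
    {i j : V} {z : N} (hz : Pth E i j z) : DomB On φ {z | Pth E i j z} (R i j) z := by
  induction hz with
  | nil => exact h0 i
  | @cons j k z e hz he ih =>
    obtain ⟨r, hr, h4⟩ := ih
    obtain ⟨r', hr', h5⟩ := h1 i j k r hr e he
    refine ⟨r', hr', fun A y h2 h3 => ?_⟩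
    have h6 := h4 A ((φ e).mulVec y) (fun x hx => by
      rw [← val_mul]
      exact h2 _ (Pth.cons hx he)) (fun x hx => by
      rw [← val_mul]
      exact h3 _ (Pth.cons hx he))
    rw [← val_mul, ← val_mul] at h6
    exact h6.trans (h5 A y h2 h3) (h3 _ (Pth.cons (hR i j hr) he))

end dom

section transfer

variable {ι : Type} {U : Ultrafilter ι} {κ : ι → Type} [∀ i, Field (κ i)] {n s : ℕ}

/-- the limit of representations -/
noncomputable def repL (U : Ultrafilter ι) (κ : ι → Type) [∀ i, Field (κ i)] {N : Type} [Monoid N]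
    (ρ : ∀ i, N →* Matrix (Fin s) (Fin s) (κ i)) : N →* Matrix (Fin s) (Fin s) (KU U κ) where
  toFun z := Matrix.of fun a b => st U κ (fun i => ρ i z a b)
  map_one' := by
    ext a b
    rw [Matrix.of_apply, Matrix.one_apply]
    have h1 : (fun i => ρ i 1 a b) = if a = b then (1 : ∀ i, κ i) else 0 := by
      funext i
      rw [map_one, Matrix.one_apply]
      split_ifs <;> rfl
    rw [h1]
    split_ifs
    · exact map_one _
    · exact map_zero _
  map_mul' z w := by
    ext a b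
    rw [Matrix.of_apply, Matrix.mul_apply]
    have h1 : (fun i => ρ i (z * w) a b) = ∑ c, (fun i => ρ i z a c) * fun i => ρ i w c b := by
      funext i
      rw [map_mul, Matrix.mul_apply, Finset.sum_apply]
      rfl
    rw [h1, map_sum]
    exact Finset.sum_congr rfl fun c _ => map_mul _ _ _

theorem val_repL {N : Type} [Monoid N] (ρ : ∀ i, N →* Matrix (Fin s) (Fin s) (κ i))
    (A : ∀ i, Matrix (Fin (n + 1)) (Fin s) (κ i)) (y : ∀ i, Fin s → κ i) (z : N) :
    val (Matrix.of fun a b => st U κ (fun i => A i a b)) (repL U κ ρ z)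
      (fun b => st U κ (fun i => y i b)) = fun j => st U κ (fun i => val (A i) (ρ i z) (y i) j) := by
  funext j
  have h1 : (fun i => val (A i) (ρ i z) (y i) j) =
      ∑ a, (fun i => A i j a) * ∑ b, (fun i => ρ i z a b) * fun i => y i b := by
    funext i
    simp only [val, Matrix.mulVec, dotProduct, Finset.sum_apply, Pi.mul_apply]
  rw [h1, map_sum]
  simp only [map_mul, map_sum]
  rfl

/-- **Transfer**: representatives for the limit are representatives almost everywhere -/
theorem transfer_dom {N : Type} [Monoid N] (ρ : ∀ i, N →* Matrix (Fin s) (Fin s) (κ i)) {d : ℕ}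
    {FF : ∀ i, Set (MvPolynomial (Fin (n + 1)) (κ i))} {P R : Set N} (hR : R.Finite) (hRP : R ⊆ P)
    {z : N} (hz : z ∈ P)
    (hT : Tst (fun a : Fin (n + 1) → KU U κ => ∀ F ∈ FFL U κ d FF, MvPolynomial.aeval a F = 0)
      (fun a => a ≠ 0)) (h : RepPt (repL U κ ρ) P R z) :
    ∀ᶠ i in (U : Filter ι),
      DomA (fun a : Fin (n + 1) → κ i => ∀ F ∈ FF i, MvPolynomial.aeval a F = 0) (ρ i) P R z ∧
      DomB (fun a : Fin (n + 1) → κ i => ∀ F ∈ FF i, MvPolynomial.aeval a F = 0) (ρ i) P R z := by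
  classical
  refine Filter.Eventually.and ?_ ?_
  · have hA := h.domA hT
    by_contra hcon
    have hcon' := Ultrafilter.eventually_not.2 hcon
    have hch : ∀ i, ∃ (A : Matrix (Fin (n + 1)) (Fin s) (κ i)) (y : Fin s → κ i),
        (¬ DomA (fun a : Fin (n + 1) → κ i => ∀ F ∈ FF i, MvPolynomial.aeval a F = 0)
          (ρ i) P R z) → (∀ x ∈ P, ∀ F ∈ FF i, MvPolynomial.aeval (val A (ρ i x) y) F = 0) ∧
          val A (ρ i z) y ≠ 0 ∧ ∀ r ∈ R, val A (ρ i r) y ≠ 0 →
            ¬ Par (val A (ρ i z) y) (val A (ρ i r) y) := by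
      intro i
      by_cases hi : DomA (fun a : Fin (n + 1) → κ i => ∀ F ∈ FF i, MvPolynomial.aeval a F = 0)
          (ρ i) P R z
      · exact ⟨0, 0, fun h => absurd hi h⟩
      · have hi' := hi
        unfold DomA at hi'
        push Not at hi'
        obtain ⟨A, y, h1, h2, h3⟩ := hi'
        exact ⟨A, y, fun _ => ⟨h1, h2, h3⟩⟩
    choose A y hAy using hch
    obtain ⟨r, hr, h2, h3⟩ := hA (Matrix.of fun a b => st U κ (fun i => A i a b))
      (fun b => st U κ (fun i => y i b)) (by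
        intro x hx
        rw [val_repL]
        refine FFL_on (fun j i => val (A i) (ρ i x) (y i) j) ?_
        filter_upwards [hcon'] with i hi
        exact (hAy i hi).1 x hx) (by
        rw [val_repL, vec_ne]
        filter_upwards [hcon'] with i hi
        exact (hAy i hi).2.1)
    rw [val_repL, vec_ne] at h2
    rw [val_repL, val_repL, vec_par] at h3
    obtain ⟨i, hi1, hi2, hi3⟩ := (hcon'.and (h2.and h3)).exists
    exact (hAy i hi1).2.2 r hr hi2 hi3
  · have hB := h.domB hz hT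
    by_contra hcon
    have hcon' := Ultrafilter.eventually_not.2 hcon
    have hch : ∀ i, ∀ r : N, ∃ (A : Matrix (Fin (n + 1)) (Fin s) (κ i)) (y : Fin s → κ i),
        r ∈ R → (¬ DomB (fun a : Fin (n + 1) → κ i => ∀ F ∈ FF i, MvPolynomial.aeval a F = 0)
          (ρ i) P R z) → (∀ x ∈ P, ∀ F ∈ FF i, MvPolynomial.aeval (val A (ρ i x) y) F = 0) ∧
          (∀ x ∈ P, val A (ρ i x) y ≠ 0) ∧ ¬ Par (val A (ρ i z) y) (val A (ρ i r) y) := by
      intro i r
      by_cases hi : DomB (fun a : Fin (n + 1) → κ i => ∀ F ∈ FF i, MvPolynomial.aeval a F = 0)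
          (ρ i) P R z
      · exact ⟨0, 0, fun _ h => absurd hi h⟩
      · by_cases hr : r ∈ R
        · have hi' := hi
          unfold DomB at hi'
          push Not at hi'
          obtain ⟨A, y, h1, h2, h3⟩ := hi' r hr
          exact ⟨A, y, fun _ _ => ⟨h1, h2, h3⟩⟩
        · exact ⟨0, 0, fun h => absurd h hr⟩
    choose A y hAy using hch
    obtain ⟨r, hr, h2⟩ := hB
    have h3 := h2 (Matrix.of fun a b => st U κ (fun i => A i r a b))
      (fun b => st U κ (fun i => y i r b)) (by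
        intro x hx
        rw [val_repL (fun i => ρ i) (fun i => A i r) (fun i => y i r)]
        refine FFL_on (fun j i => val (A i r) (ρ i x) (y i r) j) ?_
        filter_upwards [hcon'] with i hi
        exact (hAy i r hr hi).1 x hx) (by
        intro x hx
        rw [val_repL (fun i => ρ i) (fun i => A i r) (fun i => y i r), vec_ne]
        filter_upwards [hcon'] with i hi
        exact (hAy i r hr hi).2.1 x hx)
    rw [val_repL (fun i => ρ i) (fun i => A i r) (fun i => y i r),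
      val_repL (fun i => ρ i) (fun i => A i r) (fun i => y i r), vec_par] at h3
    obtain ⟨i, hi1, hi2⟩ := (hcon'.and h3).exists
    exact (hAy i r hr hi1).2.2 hi2

end transfer

/-- **Uniform finite sets of representatives**: they depend only on the labelled graph, the sizes
of the matrices and the degrees of the equations -/
theorem uniform {S : Type} [Monoid S] {V : Type} [Finite V] (E : V → V → Set S)
    (hE : ∀ i j, (E i j).Finite) (n d s : ℕ) :
    ∃ R : V → V → Set S, (∀ i j, R i j ⊆ {z | Pth E i j z}) ∧ (∀ i j, (R i j).Finite) ∧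
      ∀ (K : Type) [Field K] [CharZero K] [IsAlgClosed K]
        (FF : Set (MvPolynomial (Fin (n + 1)) K)),
        (∀ F ∈ FF, ∃ e ≤ d, F.IsHomogeneous e) → NoRat FF →
        ∀ (ρ : S →* Matrix (Fin s) (Fin s) K) (i j : V) (z : S), Pth E i j z →
          DomA (fun a : Fin (n + 1) → K => ∀ F ∈ FF, MvPolynomial.aeval a F = 0) ρ
            {z | Pth E i j z} (R i j) z ∧
          DomB (fun a : Fin (n + 1) → K => ∀ F ∈ FF, MvPolynomial.aeval a F = 0) ρ
            {z | Pth E i j z} (R i j) z := by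
  classical
  by_contra hcon
  -- a counterexample for every finite set
  have hch : ∀ T : Finset S, ∃ (K : Type) (_ : Field K) (_ : CharZero K) (_ : IsAlgClosed K)
      (FF : Set (MvPolynomial (Fin (n + 1)) K)) (ρ : S →* Matrix (Fin s) (Fin s) K) (i j : V)
      (z : S), (∀ F ∈ FF, ∃ e ≤ d, F.IsHomogeneous e) ∧ NoRat FF ∧ Pth E i j z ∧
        ¬ (DomA (fun a : Fin (n + 1) → K => ∀ F ∈ FF, MvPolynomial.aeval a F = 0) ρ
            {z | Pth E i j z} ({z | z ∈ T ∧ Pth E i j z}) z ∧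
          DomB (fun a : Fin (n + 1) → K => ∀ F ∈ FF, MvPolynomial.aeval a F = 0) ρ
            {z | Pth E i j z} ({z | z ∈ T ∧ Pth E i j z}) z) := by
    intro T
    by_contra hT
    apply hcon
    refine ⟨fun i j => {z | z ∈ T ∧ Pth E i j z}, fun i j z hz => hz.2,
      fun i j => T.finite_toSet.subset fun z hz => hz.1, ?_⟩
    intro K _ _ _ FF hF hno ρ i j z hz
    by_contra hd
    exact hT ⟨K, inferInstance, inferInstance, inferInstance, FF, ρ, i, j, z, hF, hno, hz, hd⟩
  choose κ iF iC iA FF ρ ci cj cz hhom hno hpth hnot using hch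
  let U : Ultrafilter (Finset S) := Ultrafilter.of Filter.atTop
  have hU : ∀ T₀ : Finset S, ∀ᶠ T in (U : Filter (Finset S)), T₀ ⊆ T := by
    intro T₀
    exact (Ultrafilter.of_le (Filter.atTop : Filter (Finset S))) (Filter.eventually_ge_atTop T₀)
  let L : Type := KU U κ
  have hnoL : NoRat (FFL U κ d FF) := FFL_noRat hhom hno
  have hT : Tst (fun a : Fin (n + 1) → KU U κ => ∀ F ∈ FFL U κ d FF, MvPolynomial.aeval a F = 0)
      (fun a => a ≠ 0) := tst_ne (FFL U κ d FF) FFL_hom (fun R => noRat_cur _ hnoL R)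
  have hrep : ∀ i j, FinRep (repL U κ ρ) {z | Pth E i j z} :=
    fun i j => FinRep.rep (repL U κ ρ) E hE i j
  choose R hR1 hR2 hR3 using hrep
  have htr : ∀ i j z, Pth E i j z → ∀ᶠ T in (U : Filter (Finset S)),
      DomA (fun a : Fin (n + 1) → κ T => ∀ F ∈ FF T, MvPolynomial.aeval a F = 0) (ρ T)
        {z | Pth E i j z} (R i j) z ∧
      DomB (fun a : Fin (n + 1) → κ T => ∀ F ∈ FF T, MvPolynomial.aeval a F = 0) (ρ T)
        {z | Pth E i j z} (R i j) z :=
    fun i j z hz => transfer_dom ρ (hR2 i j) (hR1 i j) hz hT (hR3 i j z hz)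
  have h0 : ∀ᶠ T in (U : Filter (Finset S)), ∀ i,
      DomA (fun a : Fin (n + 1) → κ T => ∀ F ∈ FF T, MvPolynomial.aeval a F = 0) (ρ T)
        {z | Pth E i i z} (R i i) 1 ∧
      DomB (fun a : Fin (n + 1) → κ T => ∀ F ∈ FF T, MvPolynomial.aeval a F = 0) (ρ T)
        {z | Pth E i i z} (R i i) 1 :=
    Filter.eventually_all.2 fun i => htr i i 1 .nil
  have h1 : ∀ᶠ T in (U : Filter (Finset S)), ∀ i j k, ∀ r ∈ R i j, ∀ e ∈ E j k,
      DomA (fun a : Fin (n + 1) → κ T => ∀ F ∈ FF T, MvPolynomial.aeval a F = 0) (ρ T)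
        {z | Pth E i k z} (R i k) (r * e) ∧
      DomB (fun a : Fin (n + 1) → κ T => ∀ F ∈ FF T, MvPolynomial.aeval a F = 0) (ρ T)
        {z | Pth E i k z} (R i k) (r * e) := by
    refine Filter.eventually_all.2 fun i => Filter.eventually_all.2 fun j =>
      Filter.eventually_all.2 fun k => ?_
    refine (Filter.eventually_all_finite (hR2 i j)).2 fun r hr => ?_
    refine (Filter.eventually_all_finite (hE j k)).2 fun e he => ?_
    exact htr i k (r * e) (Pth.cons (hR1 i j hr) he)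
  let T₀ : Finset S := (Set.finite_iUnion fun c : V × V => hR2 c.1 c.2).toFinset
  obtain ⟨T, hT0, hT1, hT2⟩ := ((hU T₀).and (h0.and h1)).exists
  apply hnot T
  have hsub : R (ci T) (cj T) ⊆ {z | z ∈ T ∧ Pth E (ci T) (cj T) z} := by
    intro z hz
    refine ⟨hT0 ?_, hR1 _ _ hz⟩
    rw [Set.Finite.mem_toFinset]
    exact Set.mem_iUnion.2 ⟨(ci T, cj T), hz⟩
  refine ⟨?_, ?_⟩
  · exact (domA_paths E R (ρ T) _ (fun i => (hT1 i).1)
      (fun i j k r hr e he => (hT2 i j k r hr e he).1) (hpth T)).mono subset_rfl hsub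
  · exact (domB_paths E R (ρ T) _ hR1 (fun i => (hT1 i).2)
      (fun i j k r hr e he => (hT2 i j k r hr e he).2) (hpth T)).mono subset_rfl hsub

end Pool.Agent.T6.H35.RS
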